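import Mathlib

/-!
Combinatorial data for MP_86e2e0_an (proper nonmeagre ideals).
States at level `l`: `0` = waiting, `v+1` = vertex `v` (`v ≤ l`, vertex `l` is the tail).
`cnt l s` = number of paths to state `s` at level `l`, `m l u w` = number of edges from state `u`
at level `l` to state `w` at level `l+1`.
-/

namespace Pool.Agent.R667.NM

/-- the main multiplicity at level `l` -/
def MM (l : ℕ) (c : ℕ → ℕ) : ℕ := 2 ^ (l + 3) * ∑ v ∈ Finset.range (l + 1), c (v + 1)

/-- number of edges, given the numbers of paths `c` at level `l` -/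
def mul0 (l : ℕ) (c : ℕ → ℕ) : ℕ → ℕ → ℕ
  | 0, 0 => 1
  | 0, (w + 1) => if w = l then MM l c * c (l + 1) else 0
  | (_ + 1), 0 => 0
  | (v + 1), (w + 1) =>
      if v ≤ l ∧ w ≤ l + 1 then (if v = min w l then MM l c else 0) + 1 else 0

/-- number of paths from the start to state `s` at level `l` -/
def cnt : ℕ → ℕ → ℕ
  | 0 => fun s => if s ≤ 1 then 1 else 0
  | (l + 1) => fun w => ∑ u ∈ Finset.range (l + 2), cnt l u * mul0 l (cnt l) u w

/-- number of edges from state `u` at level `l` to state `w` at level `l+1` -/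
def m (l u w : ℕ) : ℕ := mul0 l (cnt l) u w

/-- number of paths to state `w` at level `i + j` that are not waiting at level `i` -/
def NN (i : ℕ) : ℕ → ℕ → ℕ
  | 0 => fun w => if w = 0 then 0 else cnt i w
  | (j + 1) => fun w => ∑ u ∈ Finset.range (i + j + 2), NN i j u * m (i + j) u w

end Pool.Agent.R667.NM
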