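import Mathlib

/-!
Operators on `ℓ²(X)` given by partial injections.
-/

namespace Pool.Agent.R667.NM

open scoped ENNReal InnerProductSpace

/-- the Hilbert space `ℓ²(X)` -/
abbrev HX (X : Type) : Type := lp (fun _ : X => ℂ) 2

variable {X : Type}

lemma two_toReal : (2 : ℝ≥0∞).toReal = 2 := by norm_num

/-- the function underlying `op f v` -/
noncomputable def opFun (f : X ≃. X) (v : X → ℂ) : X → ℂ := fun x => (f x).elim 0 v

lemma opFun_sum_le (f : X ≃. X) (v : HX X) (s : Finset X) :
    ∑ x ∈ s, ‖opFun f v x‖ ^ (2 : ℝ≥0∞).toReal ≤ ‖v‖ ^ (2 : ℝ≥0∞).toReal := by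
  classical
  -- the image of `s` under `f`
  let t : Finset X := s.biUnion (fun x => (f x).elim ∅ (fun y => {y}))
  have h0 : (0 : ℝ) ^ (2 : ℝ≥0∞).toReal = 0 := by
    rw [two_toReal]; norm_num
  have hkey : ∑ x ∈ s, ‖opFun f v x‖ ^ (2 : ℝ≥0∞).toReal
      ≤ ∑ y ∈ t, ‖v y‖ ^ (2 : ℝ≥0∞).toReal := by
    have h1 : ∑ x ∈ s, ‖opFun f v x‖ ^ (2 : ℝ≥0∞).toReal
        = ∑ x ∈ s, ∑ y ∈ ((f x).elim ∅ (fun y => ({y} : Finset X))),
            ‖v y‖ ^ (2 : ℝ≥0∞).toReal := by
      refine Finset.sum_congr rfl fun x _ => ?_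
      unfold opFun
      cases h : f x with
      | none => simp
      | some y => simp
    rw [h1]
    have hd : ∀ x ∈ s, ∀ y ∈ s, x ≠ y →
        Disjoint ((f x).elim ∅ (fun y => ({y} : Finset X)))
          ((f y).elim ∅ (fun y => ({y} : Finset X))) := by
      intro x _ y _ hxy
      rw [Finset.disjoint_left]
      intro z hz hz'
      cases hx : f x with
      | none => rw [hx] at hz; simp at hz
      | some a =>
        cases hy : f y with
        | none => rw [hy] at hz'; simp at hz'
        | some b =>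
          rw [hx] at hz; rw [hy] at hz'
          simp only [Option.elim, Finset.mem_singleton] at hz hz'
          subst hz; subst hz'
          exact hxy (f.inj (b := z) (by rw [hx]; rfl) (by rw [hy]; rfl))
    rw [Finset.sum_biUnion (fun x hx y hy hxy => hd x hx y hy hxy)]
  refine hkey.trans ?_
  exact lp.sum_rpow_le_norm_rpow (by rw [two_toReal]; norm_num) v t

lemma opFun_mem (f : X ≃. X) (v : HX X) : Memℓp (opFun f v) 2 :=
  memℓp_gen' (opFun_sum_le f v)

/-- the linear map given by a partial injection: `(op f v) x = v (f x)` or `0` -/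
noncomputable def opLin (f : X ≃. X) : HX X →ₗ[ℂ] HX X where
  toFun v := ⟨opFun f v, opFun_mem f v⟩
  map_add' v w := by
    ext x
    simp only [lp.coeFn_add, Pi.add_apply, opFun]
    cases f x <;> simp
  map_smul' c v := by
    ext x
    simp only [lp.coeFn_smul, Pi.smul_apply, opFun, RingHom.id_apply]
    cases f x <;> simp

/-- the contraction given by a partial injection: `(op f v) x = v (f x)` or `0` -/
noncomputable def op (f : X ≃. X) : HX X →L[ℂ] HX X :=
  (opLin f).mkContinuous 1 (fun v => by
    rw [one_mul]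
    exact lp.norm_le_of_forall_sum_le (by rw [two_toReal]; norm_num) (norm_nonneg _)
      (opFun_sum_le f v))

@[simp] lemma op_apply (f : X ≃. X) (v : HX X) (x : X) : (op f v : X → ℂ) x = (f x).elim 0 v := rfl

lemma norm_op_le (f : X ≃. X) : ‖op f‖ ≤ 1 := LinearMap.mkContinuous_norm_le _ (by norm_num) _

lemma op_mul (f g : X ≃. X) : op f * op g = op (f.trans g) := by
  ext v x
  change (f x).elim 0 (fun y => (op g v : X → ℂ) y) = ((f x).bind g).elim 0 v
  cases f x with
  | none => rfl
  | some y => rfl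

lemma op_star (f : X ≃. X) : star (op f) = op f.symm := by
  symm
  rw [ContinuousLinearMap.star_eq_adjoint, ContinuousLinearMap.eq_adjoint_iff]
  intro v w
  -- ⟪op f.symm v, w⟫ = ⟪v, op f w⟫
  have h1 := lp.hasSum_inner (𝕜 := ℂ) (op f.symm v) w
  have h2 := lp.hasSum_inner (𝕜 := ℂ) v (op f w)
  refine h1.unique ?_
  refine (hasSum_iff_hasSum_of_ne_zero_bij
    (f := fun x => ⟪(op f.symm v : X → ℂ) x, (w : X → ℂ) x⟫_ℂ)
    (g := fun x => ⟪(v : X → ℂ) x, (op f w : X → ℂ) x⟫_ℂ)
    (fun x => ((f x.1).getD x.1)) ?_ ?_ ?_).2 h2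
  · intro x y hxy
    have hx : (f x.1).isSome := by
      by_contra h
      have h' : f x.1 = none := by simpa using h
      apply x.2
      simp [h']
    have hy : (f y.1).isSome := by
      by_contra h
      have h' : f y.1 = none := by simpa using h
      apply y.2
      simp [h']
    obtain ⟨a, ha⟩ := Option.isSome_iff_exists.1 hx
    obtain ⟨b, hb⟩ := Option.isSome_iff_exists.1 hy
    simp only [ha, hb, Option.getD_some] at hxy
    subst hxy
    exact Subtype.ext (f.inj (b := a) (by rw [ha]; rfl) (by rw [hb]; rfl))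
  · intro y hy
    have hy' : (f.symm y).isSome := by
      by_contra h
      have h' : f.symm y = none := by simpa using h
      apply hy
      simp [h']
    obtain ⟨a, ha⟩ := Option.isSome_iff_exists.1 hy'
    have ha' : f a = some y := (f.eq_some_iff).1 ha
    refine ⟨⟨a, ?_⟩, ?_⟩
    · intro h0
      apply hy
      simp only [op_apply, ha', ha] at h0 ⊢
      simpa using h0
    · simp [ha']
  · intro x
    have hx : (f x.1).isSome := by
      by_contra h
      have h' : f x.1 = none := by simpa using h
      apply x.2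
      simp [h']
    obtain ⟨a, ha⟩ := Option.isSome_iff_exists.1 hx
    have ha' : f.symm a = some x.1 := (f.eq_some_iff).2 ha
    simp [ha, ha']

end Pool.Agent.R667.NM
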