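import Mathlib
import Pool.Agent.R667.NM.Comb
import Pool.Agent.R667.NM.Op

/-!
The path space and the matrix units.
-/

namespace Pool.Agent.R667.NM

open scoped ENNReal InnerProductSpace

lemma m_wait' (l : ℕ) : m l 0 0 = 1 := rfl

lemma m_noret' (l v : ℕ) : m l (v + 1) 0 = 0 := rfl

lemma m_fin' (l u w : ℕ) (h : l + 2 < w) : m l u w = 0 := by
  obtain ⟨w, rfl⟩ : ∃ w', w = w' + 1 := ⟨w - 1, by omega⟩
  cases u with
  | zero =>
    show (if w = l then _ else 0) = 0
    rw [if_neg (by omega)]
  | succ v =>
    show (if v ≤ l ∧ w ≤ l + 1 then _ else 0) = 0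
    rw [if_neg (by omega)]

lemma m_pos' (l u w : ℕ) (hu : 1 ≤ u) (hu' : u ≤ l + 1) (hw : 1 ≤ w) (hw' : w ≤ l + 2) :
    1 ≤ m l u w := by
  obtain ⟨v, rfl⟩ : ∃ v, u = v + 1 := ⟨u - 1, by omega⟩
  obtain ⟨w, rfl⟩ : ∃ w', w = w' + 1 := ⟨w - 1, by omega⟩
  show 1 ≤ (if v ≤ l ∧ w ≤ l + 1 then (if v = min w l then MM l (cnt l) else 0) + 1 else 0)
  rw [if_pos (by omega)]
  omega

/-- the constraint defining infinite paths: `f l = (state at level l, label of the last edge)` -/
def IsPath (f : ℕ → ℕ × ℕ) : Prop :=
  (f 0 = (0, 0) ∨ f 0 = (1, 0)) ∧ ∀ l, (f (l + 1)).2 < m l (f l).1 (f (l + 1)).1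

/-- infinite paths -/
@[ext] structure Om : Type where
  /-- the sequence of (state, label of the last edge) -/
  f : ℕ → ℕ × ℕ
  ok : IsPath f

/-- the state at level `i` -/
def st (i : ℕ) (a : Om) : ℕ := (a.1 i).1

/-- two paths agree up to level `i` -/
def agree (i : ℕ) (a b : Om) : Prop := ∀ j ≤ i, a.1 j = b.1 j

lemma agree_refl (i : ℕ) (a : Om) : agree i a a := fun _ _ => rfl

lemma agree_symm {i : ℕ} {a b : Om} (h : agree i a b) : agree i b a := fun j hj => (h j hj).symm

lemma agree_trans {i : ℕ} {a b c : Om} (h : agree i a b) (h' : agree i b c) : agree i a c :=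
  fun j hj => (h j hj).trans (h' j hj)

lemma agree_mono {i j : ℕ} {a b : Om} (hij : j ≤ i) (h : agree i a b) : agree j a b :=
  fun k hk => h k (hk.trans hij)

lemma agree.st_eq {i : ℕ} {a b : Om} (h : agree i a b) : st i a = st i b := by
  unfold st; rw [h i le_rfl]

lemma st_le (i : ℕ) (a : Om) : st i a ≤ i + 1 := by
  cases i with
  | zero =>
    unfold st
    rcases a.2.1 with h | h <;> rw [h] <;> simp
  | succ i =>
    by_contra hlt
    have h := a.2.2 i
    rw [m_fin' i _ _ (by unfold st at hlt; omega)] at h
    omega

lemma st_succ_ne {i : ℕ} {a : Om} (h : st i a ≠ 0) : st (i + 1) a ≠ 0 := by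
  intro h0
  have h1 := a.2.2 i
  unfold st at h h0
  obtain ⟨v, hv⟩ : ∃ v, (a.1 i).1 = v + 1 := ⟨(a.1 i).1 - 1, by omega⟩
  rw [hv, h0, m_noret'] at h1
  omega

lemma st_ne_mono {i j : ℕ} {a : Om} (h : st i a ≠ 0) (hij : i ≤ j) : st j a ≠ 0 := by
  induction j, hij using Nat.le_induction with
  | base => exact h
  | succ j _ ih => exact st_succ_ne ih

open Classical in
/-- the path following `a` up to level `i` and `b` afterwards (if the states match) -/
noncomputable def splice (i : ℕ) (a b : Om) : Om :=
  if h : st i a = st i b then
    ⟨fun j => if j ≤ i then a.1 j else b.1 j, by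
      refine ⟨?_, ?_⟩
      · simpa using a.2.1
      · intro l
        by_cases hl : l + 1 ≤ i
        · simpa [hl, (by omega : l ≤ i)] using a.2.2 l
        · by_cases hl' : l ≤ i
          · have hli : l = i := by omega
            subst hli
            have := b.2.2 l
            unfold st at h
            simpa [h] using this
          · simpa [hl, hl'] using b.2.2 l⟩
  else a

lemma splice_apply {i : ℕ} {a b : Om} (h : st i a = st i b) (j : ℕ) :
    (splice i a b).1 j = if j ≤ i then a.1 j else b.1 j := by
  unfold splice
  rw [dif_pos h]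

lemma splice_agree (i : ℕ) (a b : Om) : agree i (splice i a b) a := by
  intro j hj
  by_cases h : st i a = st i b
  · rw [splice_apply h, if_pos hj]
  · unfold splice; rw [dif_neg h]

lemma splice_congr {i : ℕ} {a a' b : Om} (h : agree i a a') (hs : st i a = st i b) :
    splice i a b = splice i a' b := by
  apply Om.ext
  funext j
  rw [splice_apply hs, splice_apply (h.st_eq ▸ hs)]
  split_ifs with hj
  · exact h j hj
  · rfl

lemma splice_self {i : ℕ} {a b : Om} (h : agree i a b) : splice i a b = b := by
  apply Om.ext
  funext j
  rw [splice_apply h.st_eq]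
  split_ifs with hj
  · exact h j hj
  · rfl

lemma splice_splice {i : ℕ} {a b c : Om} (h : st i a = st i c) (h' : st i b = st i c) :
    splice i a (splice i b c) = splice i a c := by
  apply Om.ext
  funext j
  have h1 : st i (splice i b c) = st i b := (splice_agree i b c).st_eq
  rw [splice_apply (h.trans (h'.symm.trans h1.symm)), splice_apply h, splice_apply h']
  split_ifs <;> rfl

open Classical in
/-- the partial bijection: a path agreeing with `a` up to `i` is sent to the path agreeing with
`b` up to `i`, with the same tail -/
noncomputable def pe (i : ℕ) (a b : Om) : Om ≃. Om where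
  toFun x := if agree i x a ∧ st i a = st i b then some (splice i b x) else none
  invFun x := if agree i x b ∧ st i a = st i b then some (splice i a x) else none
  inv x y := by
    constructor
    · intro h
      split_ifs at h with h1
      · obtain ⟨hy, hs⟩ := h1
        simp only [Option.some.injEq] at h
        subst h
        have h2 : agree i (splice i a y) a := splice_agree i a y
        rw [if_pos ⟨h2, hs⟩]
        congr 1
        rw [splice_splice (i := i) (a := b) (b := a) (c := y) hy.st_eq.symm
          (hs.trans hy.st_eq.symm)]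
        exact splice_self (agree_symm hy)
    · intro h
      split_ifs at h with h1
      · obtain ⟨hx, hs⟩ := h1
        simp only [Option.some.injEq] at h
        subst h
        have h2 : agree i (splice i b x) b := splice_agree i b x
        rw [if_pos ⟨h2, hs⟩]
        congr 1
        rw [splice_splice (i := i) (a := a) (b := b) (c := x) hx.st_eq.symm
          (hs.symm.trans hx.st_eq.symm)]
        exact splice_self (agree_symm hx)

/-- the matrix unit `E i a b`; as an operator on `ℓ²` of the path space it maps `δ_x` to
`δ_{splice i a x}` if `x` agrees with `b` up to level `i`, and to `0` otherwise -/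
noncomputable def E (i : ℕ) (a b : Om) : HX Om →L[ℂ] HX Om := op (pe i a b)

open Classical in
lemma E_apply (i : ℕ) (a b : Om) (v : HX Om) (x : Om) :
    (E i a b v : Om → ℂ) x = if agree i x a ∧ st i a = st i b then v (splice i b x) else 0 := by
  unfold E
  rw [op_apply]
  show (if agree i x a ∧ st i a = st i b then some (splice i b x) else none).elim 0 _ = _
  split_ifs <;> rfl

/-- the basis vector `δ_x` -/
noncomputable def dl (x : Om) : HX Om := by
  classical exact lp.single 2 x (1 : ℂ)

open Classical in
lemma E_star (i : ℕ) (a b : Om) : star (E i a b) = E i b a := by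
  unfold E
  rw [op_star]
  congr 1
  apply PEquiv.ext
  intro x
  show (if agree i x b ∧ st i a = st i b then some (splice i a x) else none)
    = (if agree i x b ∧ st i b = st i a then some (splice i a x) else none)
  simp only [eq_comm]

lemma dl_apply_self (x : Om) : (dl x : Om → ℂ) x = 1 := by
  unfold dl
  simp

open Classical in
lemma dl_apply (x y : Om) : (dl x : Om → ℂ) y = if y = x then 1 else 0 := by
  unfold dl
  rw [lp.single_apply]
  split_ifs with h
  · subst h; simp
  · simp [h]

open Classical in
/-- the matrix unit `E i a b` maps `δ_x` to `δ_{splice i a x}` if `x` agrees with `b` up to `i` -/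
lemma E_dl (i : ℕ) (a b x : Om) :
    E i a b (dl x) = if agree i x b ∧ st i a = st i b then dl (splice i a x) else 0 := by
  ext y
  rw [E_apply, dl_apply]
  by_cases h1 : agree i x b ∧ st i a = st i b
  · rw [if_pos h1, dl_apply]
    obtain ⟨hx, hs⟩ := h1
    by_cases hy : y = splice i a x
    · subst hy
      rw [if_pos ⟨splice_agree i a x, hs⟩, if_pos rfl, if_pos]
      rw [splice_splice (hx.st_eq.symm) (hs.trans hx.st_eq.symm)]
      exact splice_self (agree_symm hx)
    · rw [if_neg hy]
      by_cases hya : agree i y a
      · rw [if_pos ⟨hya, hs⟩, if_neg]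
        intro h2
        apply hy
        rw [← h2, splice_splice (hya.st_eq.symm) (hs.symm.trans hya.st_eq.symm)]
        exact (splice_self (agree_symm hya)).symm
      · rw [if_neg (fun h => hya h.1)]
  · rw [if_neg h1]
    split_ifs with h2 h3
    · exfalso
      apply h1
      refine ⟨?_, h2.2⟩
      rw [← h3]
      exact splice_agree i b y
    · rfl
    · rfl

/-- an allowed continuation: follow `a` up to level `i`, then the edge `(w,k)`, then the edges
`(w,0), (w,0), ...` -/
noncomputable def ext (i : ℕ) (a : Om) (w k : ℕ) : Om := by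
  classical
  exact if h : k < m i (st i a) w then
    ⟨fun j => if j ≤ i then a.1 j else if j = i + 1 then (w, k) else (w, 0), by
      refine ⟨by simpa using a.2.1, fun l => ?_⟩
      by_cases hl : l + 1 ≤ i
      · simpa [hl, (by omega : l ≤ i)] using a.2.2 l
      · by_cases hl' : l = i
        · subst hl'
          unfold st at h
          simpa using h
        · have hw : w ≤ i + 2 := by
            by_contra hw
            rw [m_fin' i _ w (by omega)] at h
            omega
          have h1 : ¬ l ≤ i := by omega
          have h2 : ¬ l + 1 = i + 1 := by omega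
          have h3 : 0 < m l w w := by
            rcases Nat.eq_zero_or_pos w with h0 | h0
            · subst h0; rw [m_wait']; omega
            · exact m_pos' l w w h0 (by omega) h0 (by omega)
          by_cases h4 : l = i + 1
          · simpa [hl, h1, h2, h4, hl'] using (h4 ▸ h3)
          · simpa [hl, h1, h2, h4, hl'] using h3⟩
  else a

lemma ext_apply {i : ℕ} {a : Om} {w k : ℕ} (h : k < m i (st i a) w) (j : ℕ) :
    (ext i a w k).1 j = if j ≤ i then a.1 j else if j = i + 1 then (w, k) else (w, 0) := by
  unfold ext
  rw [dif_pos h]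

lemma ext_agree (i : ℕ) (a : Om) (w k : ℕ) : agree i (ext i a w k) a := by
  intro j hj
  by_cases h : k < m i (st i a) w
  · rw [ext_apply h, if_pos hj]
  · unfold ext; rw [dif_neg h]

lemma ext_succ {i : ℕ} {a : Om} {w k : ℕ} (h : k < m i (st i a) w) :
    (ext i a w k).1 (i + 1) = (w, k) := by
  rw [ext_apply h]
  simp

lemma st_ext {i : ℕ} {a : Om} {w k : ℕ} (h : k < m i (st i a) w) :
    st (i + 1) (ext i a w k) = w := by
  unfold st
  rw [ext_succ h]

/-- the starting path: constant -/
def start0 (w : ℕ) (hw : w ≤ 1) : Om :=
  ⟨fun _ => (w, 0), by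
    refine ⟨?_, fun l => ?_⟩
    · interval_cases w <;> simp
    · show 0 < m l w w
      interval_cases w
      · rw [m_wait']; omega
      · exact m_pos' l 1 1 le_rfl (by omega) le_rfl (by omega)⟩

/-- the sum over the (finitely many) path prefixes ending in state `w` at level `l`
(each represented by the path that continues it by the edges `(w,0), (w,0), ...`) -/
noncomputable def Phi {V : Type} [AddCommMonoid V] : ℕ → ℕ → (Om → V) → V
  | 0 => fun w f => if hw : w ≤ 1 then f (start0 w hw) else 0
  | (l + 1) => fun w f =>
      ∑ u ∈ Finset.range (l + 2), ∑ k ∈ Finset.range (m l u w),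
        Phi l u (fun a => f (ext l a w k))

end Pool.Agent.R667.NM
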