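import Mathlib
import Pool.Agent.R667.NM.Comb
import Pool.Agent.R667.NM.Op
import Pool.Agent.R667.NM.Path

/-!
The algebra, the projections `P i` and the finite-level traces: definitions only.
-/

namespace Pool.Agent.R667.NM

open scoped ENNReal InnerProductSpace
open Filter Topology

/-- bounded operators on `ℓ²` of the path space -/
abbrev BH : Type := HX Om →L[ℂ] HX Om

/-- the matrix units (over states that are not waiting) -/
def units (i : ℕ) : Set BH := {T | ∃ a b : Om, st i a = st i b ∧ st i a ≠ 0 ∧ T = E i a b}

/-- the span of the matrix units of level `i` -/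
noncomputable def A0 (i : ℕ) : Submodule ℂ BH := Submodule.span ℂ (units i)

/-- the projection onto the paths that are not waiting at level `i` -/
noncomputable def P (i : ℕ) : BH := by
  classical exact op (PEquiv.ofSet {x : Om | st i x ≠ 0})

/-- the C*-algebra generated by all matrix units -/
noncomputable def AA : NonUnitalStarSubalgebra ℂ BH :=
  (NonUnitalStarAlgebra.adjoin ℂ (⋃ i, units i)).topologicalClosure

instance : IsClosed (AA : Set BH) :=
  NonUnitalStarSubalgebra.isClosed_topologicalClosure _

/-- the path that follows `b` up to level `l` and then the edges `(st l b, 0)` -/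
noncomputable def canon : ℕ → Om → Om
  | 0, b => start0 (st 0 b) (st_le 0 b)
  | (l + 1), b => ext l b (st (l + 1) b) (b.1 (l + 1)).2

/-- the normalized trace at level `l` and state `w` (real part) -/
noncomputable def tt (l w : ℕ) (T : BH) : ℝ :=
  Phi l w (fun a => (⟪dl a, T (dl a)⟫_ℂ).re) / (cnt l w : ℝ)

noncomputable example : NonUnitalCStarAlgebra AA := inferInstance

end Pool.Agent.R667.NM
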