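import Mathlib
import Pool.Agent.R667.NM.Alg

/-!
Sums over path prefixes, the projection `P i` and the refinement relation.
-/

namespace Pool.Agent.R667.NM

open scoped ENNReal InnerProductSpace
open Filter Topology

theorem Phi_zero' {V : Type} [AddCommMonoid V] (w : ℕ) (f : Om → V) :
    Phi 0 w f = if hw : w ≤ 1 then f (start0 w hw) else 0 := rfl

theorem Phi_succ' {V : Type} [AddCommMonoid V] (l w : ℕ) (f : Om → V) :
    Phi (l + 1) w f = ∑ u ∈ Finset.range (l + 2), ∑ k ∈ Finset.range (m l u w),
        Phi l u (fun a => f (ext l a w k)) := rfl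

theorem Phi_congr {V : Type} [AddCommMonoid V] (l w : ℕ) {f g : Om → V}
    (h : ∀ a, st l a = w → f a = g a) : Phi l w f = Phi l w g := by
  induction l generalizing w f g with
  | zero =>
    rw [Phi_zero', Phi_zero']
    split_ifs with hw
    · exact h _ rfl
    · rfl
  | succ l ih =>
    rw [Phi_succ', Phi_succ']
    refine Finset.sum_congr rfl fun u _ => Finset.sum_congr rfl fun k hk => ih u ?_
    intro a ha
    apply h
    exact st_ext (by rw [ha]; exact Finset.mem_range.1 hk)

theorem Phi_mem {V : Type} [AddCommMonoid V] (W : AddSubmonoid V) (l w : ℕ) {f : Om → V}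
    (h : ∀ a, st l a = w → f a ∈ W) : Phi l w f ∈ W := by
  induction l generalizing w f with
  | zero =>
    rw [Phi_zero']
    split_ifs with hw
    · exact h _ rfl
    · exact W.zero_mem
  | succ l ih =>
    rw [Phi_succ']
    refine W.sum_mem fun u _ => W.sum_mem fun k hk => ih u ?_
    intro a ha
    apply h
    exact st_ext (by rw [ha]; exact Finset.mem_range.1 hk)

theorem Phi_map {V W : Type} [AddCommMonoid V] [AddCommMonoid W] (g : V →+ W) (l w : ℕ)
    (f : Om → V) : g (Phi l w f) = Phi l w (fun a => g (f a)) := by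
  induction l generalizing w f with
  | zero =>
    rw [Phi_zero', Phi_zero']
    split_ifs with hw
    · rfl
    · exact map_zero g
  | succ l ih =>
    rw [Phi_succ', Phi_succ', map_sum]
    refine Finset.sum_congr rfl fun u _ => ?_
    rw [map_sum]
    exact Finset.sum_congr rfl fun k _ => ih u _

theorem Phi_add {V : Type} [AddCommMonoid V] (l w : ℕ) (f g : Om → V) :
    Phi l w (fun a => f a + g a) = Phi l w f + Phi l w g := by
  induction l generalizing w f g with
  | zero =>
    rw [Phi_zero', Phi_zero', Phi_zero']
    split_ifs with hw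
    · rfl
    · exact (add_zero 0).symm
  | succ l ih =>
    rw [Phi_succ', Phi_succ', Phi_succ', ← Finset.sum_add_distrib]
    refine Finset.sum_congr rfl fun u _ => ?_
    rw [← Finset.sum_add_distrib]
    exact Finset.sum_congr rfl fun k _ => ih u _ _

theorem Phi_const0 {V : Type} [AddCommMonoid V] (l w : ℕ) :
    Phi l w (fun _ => (0 : V)) = 0 := by
  have h := Phi_mem (V := V) (⊥ : AddSubmonoid V) l w (f := fun _ => (0 : V))
    (fun _ _ => by simp)
  simpa using h

theorem Phi_mono (l w : ℕ) {f g : Om → ℝ} (h : ∀ a, st l a = w → f a ≤ g a) :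
    Phi l w f ≤ Phi l w g := by
  induction l generalizing w f g with
  | zero =>
    rw [Phi_zero', Phi_zero']
    split_ifs with hw
    · exact h _ rfl
    · exact le_rfl
  | succ l ih =>
    rw [Phi_succ', Phi_succ']
    refine Finset.sum_le_sum fun u _ => Finset.sum_le_sum fun k hk => ih u ?_
    intro a ha
    apply h
    exact st_ext (by rw [ha]; exact Finset.mem_range.1 hk)

theorem Phi_const (l w : ℕ) (hw : w ≤ l + 1) (c : ℝ) : Phi l w (fun _ => c) = (cnt l w : ℝ) * c := by
  induction l generalizing w with
  | zero =>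
    rw [Phi_zero']
    have h1 : cnt 0 w = 1 := by
      show (if w ≤ 1 then 1 else 0) = 1
      rw [if_pos (by omega)]
    rw [dif_pos (by omega), h1]
    simp
  | succ l ih =>
    rw [Phi_succ']
    have h1 : cnt (l + 1) w = ∑ u ∈ Finset.range (l + 2), cnt l u * m l u w := rfl
    rw [h1]
    push_cast
    rw [Finset.sum_mul]
    refine Finset.sum_congr rfl fun u hu => ?_
    rw [Finset.sum_const, Finset.card_range, nsmul_eq_mul,
      ih u (by have := Finset.mem_range.1 hu; omega)]
    ring

theorem canon_agree (l : ℕ) (b : Om) : agree l (canon l b) b := by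
  cases l with
  | zero =>
    intro j hj
    obtain rfl : j = 0 := by omega
    show (st 0 b, 0) = b.1 0
    unfold st
    rcases b.2.1 with h | h <;> rw [h]
  | succ l =>
    intro j hj
    have hk : (b.1 (l + 1)).2 < m l (st l b) (st (l + 1) b) := b.2.2 l
    show (ext l b (st (l + 1) b) (b.1 (l + 1)).2).1 j = b.1 j
    rcases Nat.lt_or_ge j (l + 1) with h | h
    · exact ext_agree l b _ _ j (by omega)
    · obtain rfl : j = l + 1 := by omega
      rw [ext_succ hk]
      rfl

theorem canon_tail (l : ℕ) (b : Om) (j : ℕ) (hj : l < j) : (canon l b).1 j = (st l b, 0) := by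
  cases l with
  | zero => rfl
  | succ l =>
    have hk : (b.1 (l + 1)).2 < m l (st l b) (st (l + 1) b) := b.2.2 l
    show (ext l b (st (l + 1) b) (b.1 (l + 1)).2).1 j = (st (l + 1) b, 0)
    rw [ext_apply hk, if_neg (by omega), if_neg (by omega)]

theorem splice_canon (l : ℕ) (a b : Om) (h : st l a = st l b) :
    splice l a (canon l b) = canon l a := by
  apply Om.ext
  funext j
  have h1 : st l a = st l (canon l b) := h.trans (canon_agree l b).st_eq.symm
  rw [splice_apply h1]
  split_ifs with hj
  · exact (canon_agree l a j hj).symm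
  · rw [canon_tail l b j (by omega), canon_tail l a j (by omega), h]

theorem ext_congr' {i : ℕ} {a b : Om} {w k : ℕ} (h : agree i a b) (hk : k < m i (st i a) w) :
    ext i a w k = ext i b w k := by
  apply Om.ext
  funext j
  rw [ext_apply hk, ext_apply (h.st_eq ▸ hk)]
  split_ifs with h1 h2
  · exact h j h1
  · rfl
  · rfl

theorem agree_ext_iff {l : ℕ} {a b : Om} {w k : ℕ} (hk : k < m l (st l a) w) :
    agree (l + 1) (ext l a w k) b ↔ b.1 (l + 1) = (w, k) ∧ agree l a b := by
  constructor
  · intro h
    refine ⟨?_, ?_⟩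
    · rw [← h (l + 1) le_rfl, ext_succ hk]
    · exact agree_trans (agree_symm (ext_agree l a w k)) (agree_mono (Nat.le_succ l) h)
  · rintro ⟨h1, h2⟩ j hj
    rcases Nat.lt_or_ge j (l + 1) with h | h
    · rw [ext_agree l a w k j (by omega)]
      exact h2 j (by omega)
    · obtain rfl : j = l + 1 := by omega
      rw [ext_succ hk, h1]

open Classical in
/-- every prefix is hit exactly once -/
theorem Phi_agree {V : Type} [AddCommMonoid V] (l w : ℕ) (hw : w ≤ l + 1) (b : Om) (f : Om → V) :
    Phi l w (fun a => if agree l a b then f a else 0) = if st l b = w then f (canon l b) else 0 := by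
  induction l generalizing w f with
  | zero =>
    rw [Phi_zero', dif_pos (by omega)]
    by_cases h : st 0 b = w
    · subst h
      rw [if_pos rfl, if_pos]
      · rfl
      · exact canon_agree 0 b
    · rw [if_neg h, if_neg]
      intro h1
      exact h h1.st_eq.symm
  | succ l ih =>
    rw [Phi_succ']
    have h1 : ∀ u ∈ Finset.range (l + 2), ∀ k ∈ Finset.range (m l u w),
        Phi l u (fun a => if agree (l + 1) (ext l a w k) b then f (ext l a w k) else 0)
          = if b.1 (l + 1) = (w, k) then (if st l b = u then f (ext l (canon l b) w k) else 0)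
            else 0 := by
      intro u hu k hk
      have hu' : u ≤ l + 1 := by have := Finset.mem_range.1 hu; omega
      have hk' : k < m l u w := Finset.mem_range.1 hk
      rw [← ih u hu' (fun a => f (ext l a w k))]
      by_cases hb : b.1 (l + 1) = (w, k)
      · rw [if_pos hb]
        refine Phi_congr l u fun a ha => ?_
        have hk2 : k < m l (st l a) w := by rw [ha]; exact hk'
        by_cases h2 : agree l a b
        · rw [if_pos h2, if_pos ((agree_ext_iff hk2).2 ⟨hb, h2⟩)]
        · rw [if_neg h2, if_neg (fun h3 => h2 ((agree_ext_iff hk2).1 h3).2)]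
      · rw [if_neg hb]
        refine (Phi_congr l u fun a ha => ?_).trans (Phi_const0 (V := V) l u)
        have hk2 : k < m l (st l a) w := by rw [ha]; exact hk'
        rw [if_neg (fun h3 => hb ((agree_ext_iff hk2).1 h3).1)]
    rw [Finset.sum_congr rfl fun u hu => Finset.sum_congr rfl fun k hk => h1 u hu k hk]
    by_cases hs : st (l + 1) b = w
    · subst hs
      have hk : (b.1 (l + 1)).2 < m l (st l b) (st (l + 1) b) := b.2.2 l
      rw [if_pos rfl, Finset.sum_eq_single (st l b),
        Finset.sum_eq_single ((b.1 (l + 1)).2),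
        if_pos (show b.1 (l + 1) = (st (l + 1) b, (b.1 (l + 1)).2) from rfl), if_pos rfl]
      · refine congrArg f ?_
        exact ext_congr' (canon_agree l b) (by rw [(canon_agree l b).st_eq]; exact hk)
      · intro k _ hk1
        rw [if_neg]
        intro h2
        apply hk1
        rw [h2]
      · intro h2
        exact absurd (Finset.mem_range.2 hk) h2
      · intro u _ hu
        refine Finset.sum_eq_zero fun k _ => ?_
        rw [if_neg (fun h2 : st l b = u => hu h2.symm), ite_self]
      · intro h2
        exact absurd (Finset.mem_range.2 (by have := st_le l b; omega)) h2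
    · rw [if_neg hs]
      refine Finset.sum_eq_zero fun u _ => Finset.sum_eq_zero fun k _ => ?_
      rw [if_neg]
      intro h2
      apply hs
      unfold st
      rw [h2]

open Classical in
/-- number of paths not waiting at level `i` -/
theorem Phi_NN (i j w : ℕ) (hw : w ≤ i + j + 1) :
    Phi (i + j) w (fun a => if st i a ≠ 0 then (1 : ℝ) else 0) = (NN i j w : ℝ) := by
  induction j generalizing w with
  | zero =>
    show Phi i w (fun a => if st i a ≠ 0 then (1 : ℝ) else 0) = ((if w = 0 then 0 else cnt i w : ℕ) : ℝ)
    rw [Phi_congr i w (g := fun _ => if w ≠ 0 then (1 : ℝ) else 0)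
      (fun a ha => by rw [ha]), Phi_const i w (by omega)]
    by_cases h : w = 0
    · simp [h]
    · simp [h]
  | succ j ih =>
    show Phi (i + j + 1) w (fun a => if st i a ≠ 0 then (1 : ℝ) else 0)
      = ((∑ u ∈ Finset.range (i + j + 2), NN i j u * m (i + j) u w : ℕ) : ℝ)
    rw [Phi_succ']
    push_cast
    refine Finset.sum_congr rfl fun u hu => ?_
    have hu' : u ≤ i + j + 1 := by have := Finset.mem_range.1 hu; omega
    have h1 : ∀ k ∈ Finset.range (m (i + j) u w),
        Phi (i + j) u (fun a => if st i (ext (i + j) a w k) ≠ 0 then (1 : ℝ) else 0)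
          = (NN i j u : ℝ) := by
      intro k _
      rw [← ih u hu']
      refine Phi_congr _ _ fun a _ => ?_
      rw [(agree_mono (Nat.le_add_right i j) (ext_agree (i + j) a w k)).st_eq]
    rw [Finset.sum_congr rfl h1, Finset.sum_const, Finset.card_range, nsmul_eq_mul]
    ring

/-- evaluation of an operator at a vector and a point -/
noncomputable def evalAt (v : HX Om) (x : Om) : BH →+ ℂ where
  toFun T := (T v : Om → ℂ) x
  map_zero' := rfl
  map_add' _ _ := rfl

lemma evalAt_apply (v : HX Om) (x : Om) (T : BH) : evalAt v x T = (T v : Om → ℂ) x := rfl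

lemma BH_ext {S T : BH} (h : ∀ v x, evalAt v x S = evalAt v x T) : S = T := by
  ext v x
  exact h v x

open Classical in
lemma P_apply (i : ℕ) (v : HX Om) (x : Om) :
    (P i v : Om → ℂ) x = if st i x ≠ 0 then v x else 0 := by
  unfold P
  rw [op_apply]
  have h1 : (PEquiv.ofSet {x : Om | st i x ≠ 0}) x
      = if st i x ≠ 0 then some x else none := by
    show (if x ∈ {x : Om | st i x ≠ 0} then some x else none) = _
    rfl
  rw [h1]
  split_ifs <;> rfl

/-- `P i = sum over w in 1..i+1 and all prefixes a ending in state w of E i a a` -/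
theorem P_eq (i : ℕ) :
    P i = ∑ w ∈ Finset.range (i + 1), Phi i (w + 1) (fun a => E i a a) := by
  classical
  refine BH_ext fun v x => ?_
  rw [evalAt_apply, P_apply, map_sum]
  have h1 : ∀ w ∈ Finset.range (i + 1), evalAt v x (Phi i (w + 1) (fun a => E i a a))
      = if st i x = w + 1 then v x else 0 := by
    intro w hw
    have hw' : w + 1 ≤ i + 1 := by have := Finset.mem_range.1 hw; omega
    rw [Phi_map, ← Phi_agree i (w + 1) hw' x (fun _ => (v : Om → ℂ) x)]
    refine Phi_congr _ _ fun a _ => ?_
    rw [evalAt_apply, E_apply]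
    by_cases h2 : agree i a x
    · rw [if_pos h2, if_pos ⟨agree_symm h2, rfl⟩, splice_self h2]
    · rw [if_neg h2, if_neg (fun h3 => h2 (agree_symm h3.1))]
  rw [Finset.sum_congr rfl h1]
  by_cases h0 : st i x = 0
  · rw [if_neg (by simpa using h0)]
    symm
    refine Finset.sum_eq_zero fun w _ => ?_
    rw [if_neg (by omega)]
  · rw [if_pos h0]
    have hle := st_le i x
    rw [Finset.sum_eq_single (st i x - 1), if_pos (by omega)]
    · intro w _ hw
      rw [if_neg (by omega)]
    · intro h2
      exact absurd (Finset.mem_range.2 (by omega)) h2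

theorem P_mem (i : ℕ) : P i ∈ A0 i := by
  rw [P_eq]
  refine Submodule.sum_mem _ fun w _ => ?_
  refine Phi_mem (A0 i).toAddSubmonoid i (w + 1) fun a ha => ?_
  exact Submodule.subset_span ⟨a, a, rfl, by rw [ha]; omega, rfl⟩

/-- the refinement relation -/
theorem E_refine (i : ℕ) (a b : Om) (h : st i a = st i b) :
    E i a b = ∑ w ∈ Finset.range (i + 3), ∑ k ∈ Finset.range (m i (st i a) w),
      E (i + 1) (ext i a w k) (ext i b w k) := by
  classical
  refine BH_ext fun v x => ?_
  rw [evalAt_apply, E_apply, map_sum]
  have h1 : ∀ w ∈ Finset.range (i + 3), ∀ k ∈ Finset.range (m i (st i a) w),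
      evalAt v x (E (i + 1) (ext i a w k) (ext i b w k))
        = if x.1 (i + 1) = (w, k) ∧ agree i a x then v (splice i b x) else 0 := by
    intro w _ k hk
    have hk1 : k < m i (st i a) w := Finset.mem_range.1 hk
    have hk2 : k < m i (st i b) w := by rw [← h]; exact hk1
    rw [evalAt_apply, E_apply]
    by_cases h2 : x.1 (i + 1) = (w, k) ∧ agree i a x
    · have h3 := (agree_ext_iff hk1).2 h2
      rw [if_pos h2, if_pos ⟨agree_symm h3, by rw [st_ext hk1, st_ext hk2]⟩]
      refine congrArg (v : Om → ℂ) ?_
      apply Om.ext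
      funext j
      have h4 : st (i + 1) (ext i b w k) = st (i + 1) x := by
        rw [st_ext hk2, ← h3.st_eq, st_ext hk1]
      have h5 : st i b = st i x := by rw [← h, h2.2.st_eq]
      rw [splice_apply h4, splice_apply h5]
      rcases Nat.lt_trichotomy j (i + 1) with h6 | h6 | h6
      · rw [if_pos (by omega), if_pos (by omega), ext_agree i b w k j (by omega)]
      · subst h6
        rw [if_pos le_rfl, if_neg (by omega), ext_succ hk2, h2.1]
      · rw [if_neg (by omega), if_neg (by omega)]
    · rw [if_neg h2, if_neg]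
      rintro ⟨h3, -⟩
      exact h2 ((agree_ext_iff hk1).1 (agree_symm h3))
  rw [Finset.sum_congr rfl fun w hw => (map_sum (evalAt v x) _ _).trans
    (Finset.sum_congr rfl fun k hk => h1 w hw k hk)]
  by_cases h2 : agree i a x
  · rw [if_pos ⟨agree_symm h2, h⟩]
    have hk : (x.1 (i + 1)).2 < m i (st i a) (st (i + 1) x) := by
      rw [h2.st_eq]; exact x.2.2 i
    rw [Finset.sum_eq_single (st (i + 1) x), Finset.sum_eq_single ((x.1 (i + 1)).2),
      if_pos ⟨rfl, h2⟩]
    · intro k _ hk1
      rw [if_neg]
      rintro ⟨h3, -⟩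
      apply hk1
      rw [h3]
    · intro h3
      exact absurd (Finset.mem_range.2 hk) h3
    · intro w _ hw
      refine Finset.sum_eq_zero fun k _ => ?_
      rw [if_neg]
      rintro ⟨h3, -⟩
      apply hw
      unfold st
      rw [h3]
    · intro h3
      exact absurd (Finset.mem_range.2 (by have := st_le (i + 1) x; omega)) h3
  · rw [if_neg (fun h3 => h2 (agree_symm h3.1))]
    symm
    refine Finset.sum_eq_zero fun w _ => Finset.sum_eq_zero fun k _ => ?_
    rw [if_neg (fun h3 => h2 h3.2)]

end Pool.Agent.R667.NM
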