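import Mathlib
import Pool.Agent.R667.NM.Alg
import Pool.Agent.R667.NM.PhiLemmas

/-!
Algebra of the matrix units (piece NM-B1).
-/

namespace Pool.Agent.R667.NM

open scoped ENNReal InnerProductSpace
open Filter Topology

open Classical in
theorem E_mul (i : ℕ) (a b c d : Om) (hab : st i a = st i b) (hcd : st i c = st i d) :
    E i a b * E i c d = if agree i b c then E i a d else 0 := by
  ext v x
  rw [mul_apply_eq_comp, E_apply]
  have hag : agree i (splice i b x) c ↔ agree i b c :=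
    ⟨fun h => agree_trans (agree_symm (splice_agree i b x)) h,
      fun h => agree_trans (splice_agree i b x) h⟩
  rw [E_apply]
  by_cases hxa : agree i x a
  · have hx : st i x = st i a := hxa.st_eq
    rw [if_pos ⟨hxa, hab⟩]
    by_cases hbc : agree i b c
    · rw [if_pos ⟨hag.2 hbc, hcd⟩, if_pos hbc, E_apply,
        if_pos ⟨hxa, hab.trans (hbc.st_eq.trans hcd)⟩]
      rw [splice_splice (i := i) (a := d) (b := b) (c := x)
        (hcd.symm.trans (hbc.st_eq.symm.trans (hab.symm.trans hx.symm))) (hab.symm.trans hx.symm)]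
    · rw [if_neg (fun h => hbc (hag.1 h.1)), if_neg hbc]
      rfl
  · rw [if_neg (fun h => hxa h.1)]
    split_ifs with h
    · rw [E_apply, if_neg (fun h => hxa h.1)]
    · rfl

theorem E_congr (i : ℕ) (a a' b b' : Om) (ha : agree i a a') (hb : agree i b b') :
    E i a b = E i a' b' := by
  classical
  ext v x
  rw [E_apply, E_apply]
  have h1 : agree i x a ↔ agree i x a' :=
    ⟨fun h => agree_trans h ha, fun h => agree_trans h (agree_symm ha)⟩
  have h2 : st i a = st i b ↔ st i a' = st i b' := by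
    rw [ha.st_eq, hb.st_eq]
  by_cases h : agree i x a ∧ st i a = st i b
  · rw [if_pos h, if_pos ⟨h1.1 h.1, h2.1 h.2⟩]
    rw [splice_congr (i := i) (a := b) (a' := b') (b := x) hb (h.2.symm.trans h.1.st_eq.symm)]
  · rw [if_neg h, if_neg (fun h' => h ⟨h1.2 h'.1, h2.2 h'.2⟩)]

theorem A0_mono {i j : ℕ} (h : i ≤ j) : A0 i ≤ A0 j := by
  induction j, h using Nat.le_induction with
  | base => exact le_rfl
  | succ j _ ih =>
    refine ih.trans ?_
    refine Submodule.span_le.2 ?_
    rintro T ⟨a, b, hab, h0, rfl⟩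
    rw [SetLike.mem_coe, E_refine j a b hab]
    refine Submodule.sum_mem _ fun w _ => Submodule.sum_mem _ fun k hk => ?_
    rw [Finset.mem_range] at hk
    refine Submodule.subset_span ⟨ext j a w k, ext j b w k, ?_, ?_, rfl⟩
    · rw [st_ext hk, st_ext (hab ▸ hk)]
    · rw [st_ext hk]
      rintro rfl
      obtain ⟨v, hv⟩ : ∃ v, st j a = v + 1 := ⟨st j a - 1, by omega⟩
      rw [hv, m_noret'] at hk
      omega

theorem A0_mul {i : ℕ} {S T : BH} (hS : S ∈ A0 i) (hT : T ∈ A0 i) : S * T ∈ A0 i := by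
  classical
  refine Submodule.span_induction (p := fun S _ => S * T ∈ A0 i) ?_ ?_ ?_ ?_ hS
  · rintro S ⟨a, b, hab, h0, rfl⟩
    refine Submodule.span_induction (p := fun T _ => E i a b * T ∈ A0 i) ?_ ?_ ?_ ?_ hT
    · rintro T ⟨c, d, hcd, h1, rfl⟩
      rw [E_mul i a b c d hab hcd]
      split_ifs with h
      · exact Submodule.subset_span ⟨a, d, hab.trans (h.st_eq.trans hcd), h0, rfl⟩
      · exact Submodule.zero_mem _
    · rw [mul_zero]
      exact Submodule.zero_mem _
    · intro x y _ _ hx hy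
      rw [mul_add]
      exact Submodule.add_mem _ hx hy
    · intro r x _ hx
      rw [mul_smul_comm]
      exact Submodule.smul_mem _ _ hx
  · rw [zero_mul]
    exact Submodule.zero_mem _
  · intro x y _ _ hx hy
    rw [add_mul]
    exact Submodule.add_mem _ hx hy
  · intro r x _ hx
    rw [smul_mul_assoc]
    exact Submodule.smul_mem _ _ hx

theorem A0_star {i : ℕ} {T : BH} (hT : T ∈ A0 i) : star T ∈ A0 i := by
  classical
  refine Submodule.span_induction (p := fun T _ => star T ∈ A0 i) ?_ ?_ ?_ ?_ hT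
  · rintro T ⟨a, b, hab, h0, rfl⟩
    rw [E_star]
    exact Submodule.subset_span ⟨b, a, hab.symm, fun h => h0 (hab.trans h), rfl⟩
  · rw [star_zero]
    exact Submodule.zero_mem _
  · intro x y _ _ hx hy
    rw [star_add]
    exact Submodule.add_mem _ hx hy
  · intro r x _ hx
    rw [star_smul]
    exact Submodule.smul_mem _ _ hx

theorem A0_le_adjoin (i : ℕ) {T : BH} (hT : T ∈ A0 i) :
    T ∈ NonUnitalStarAlgebra.adjoin ℂ (⋃ i, units i) := by
  refine Submodule.span_induction
    (p := fun T _ => T ∈ NonUnitalStarAlgebra.adjoin ℂ (⋃ i, units i)) ?_ ?_ ?_ ?_ hT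
  · intro T hT
    exact NonUnitalStarAlgebra.subset_adjoin ℂ _ (Set.mem_iUnion.2 ⟨i, hT⟩)
  · exact zero_mem _
  · intro x y _ _ hx hy
    exact add_mem hx hy
  · intro r x _ hx
    exact SMulMemClass.smul_mem r hx

theorem A0_le_AA (i : ℕ) {T : BH} (hT : T ∈ A0 i) : T ∈ AA :=
  NonUnitalStarSubalgebra.le_topologicalClosure _ (A0_le_adjoin i hT)

theorem adjoin_mem_A0 {T : BH} (hT : T ∈ NonUnitalStarAlgebra.adjoin ℂ (⋃ i, units i)) :
    ∃ i, T ∈ A0 i := by
  induction hT using NonUnitalStarAlgebra.adjoin_induction with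
  | mem x hx =>
    obtain ⟨i, hi⟩ := Set.mem_iUnion.1 hx
    exact ⟨i, Submodule.subset_span hi⟩
  | add x y _ _ hx hy =>
    obtain ⟨i, hi⟩ := hx
    obtain ⟨j, hj⟩ := hy
    exact ⟨max i j, Submodule.add_mem _ (A0_mono (le_max_left i j) hi)
      (A0_mono (le_max_right i j) hj)⟩
  | zero => exact ⟨0, Submodule.zero_mem _⟩
  | mul x y _ _ hx hy =>
    obtain ⟨i, hi⟩ := hx
    obtain ⟨j, hj⟩ := hy
    exact ⟨max i j, A0_mul (A0_mono (le_max_left i j) hi) (A0_mono (le_max_right i j) hj)⟩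
  | smul r x _ hx =>
    obtain ⟨i, hi⟩ := hx
    exact ⟨i, Submodule.smul_mem _ _ hi⟩
  | star x _ hx =>
    obtain ⟨i, hi⟩ := hx
    exact ⟨i, A0_star hi⟩

/-- `AA` is the closure of the union of the `A0 i` -/
theorem exists_A0_near {T : BH} (hT : T ∈ AA) {ε : ℝ} (hε : 0 < ε) :
    ∃ i, ∃ S ∈ A0 i, ‖T - S‖ < ε := by
  have h1 : T ∈ closure ((NonUnitalStarAlgebra.adjoin ℂ (⋃ i, units i) :
      NonUnitalStarSubalgebra ℂ BH) : Set BH) := hT
  obtain ⟨S, hS, hTS⟩ := Metric.mem_closure_iff.1 h1 ε hε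
  obtain ⟨i, hi⟩ := adjoin_mem_A0 hS
  exact ⟨i, S, hi, by rwa [← dist_eq_norm]⟩

open Classical in
theorem P_apply_st (i : ℕ) (v : HX Om) (x : Om) :
    (P i v : Om → ℂ) x = if st i x ≠ 0 then v x else 0 := by
  unfold P
  rw [op_apply]
  show (if x ∈ {x : Om | st i x ≠ 0} then some x else none).elim 0 _ = _
  by_cases h : st i x ≠ 0
  · rw [if_pos h, if_pos (by exact h)]
    rfl
  · rw [if_neg h, if_neg (by exact h)]
    rfl

theorem P_star (i : ℕ) : star (P i) = P i := by
  unfold P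
  rw [op_star, PEquiv.ofSet_symm]

theorem P_mul_P {i j : ℕ} (h : i ≤ j) : P i * P j = P i := by
  classical
  ext v x
  rw [mul_apply_eq_comp, P_apply_st, P_apply_st]
  by_cases h1 : st i x ≠ 0
  · rw [if_pos h1, if_pos (st_ne_mono h1 h), P_apply_st, if_pos h1]
  · rw [if_neg h1, P_apply_st, if_neg h1]

theorem P_idem (i : ℕ) : P i * P i = P i := P_mul_P le_rfl

theorem P_mul_P' {i j : ℕ} (h : i ≤ j) : P j * P i = P i := by
  have h1 := congrArg star (P_mul_P h)
  rwa [star_mul, P_star, P_star] at h1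

theorem norm_P_le (i : ℕ) : ‖P i‖ ≤ 1 := norm_op_le _

theorem P_mul_A0 {i : ℕ} {T : BH} (hT : T ∈ A0 i) : P i * T = T := by
  classical
  refine Submodule.span_induction (p := fun T _ => P i * T = T) ?_ ?_ ?_ ?_ hT
  · rintro T ⟨a, b, hab, h0, rfl⟩
    ext v x
    rw [mul_apply_eq_comp, P_apply_st, E_apply]
    by_cases hxa : agree i x a
    · rw [if_pos (by rw [hxa.st_eq]; exact h0)]
    · have h2 : ¬ (agree i x a ∧ st i a = st i b) := fun h => hxa h.1
      rw [if_neg h2]
      exact ite_self 0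
  · rw [mul_zero]
  · intro x y _ _ hx hy
    rw [mul_add, hx, hy]
  · intro r x _ hx
    rw [mul_smul_comm, hx]

theorem A0_mul_P {i : ℕ} {T : BH} (hT : T ∈ A0 i) : T * P i = T := by
  have h1 := congrArg star (P_mul_A0 (A0_star hT))
  rwa [star_mul, star_star, P_star] at h1

theorem P_tendsto {T : BH} (hT : T ∈ AA) : Tendsto (fun i => P i * T) atTop (𝓝 T) := by
  rw [Metric.tendsto_atTop]
  intro ε hε
  obtain ⟨i, S, hS, hTS⟩ := exists_A0_near hT (half_pos hε)
  refine ⟨i, fun j hj => ?_⟩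
  rw [dist_eq_norm]
  have h1 : P j * T - T = P j * (T - S) + (S - T) := by
    rw [mul_sub, P_mul_A0 (A0_mono hj hS)]
    abel
  rw [h1]
  have h2 : ‖P j * (T - S)‖ ≤ ‖T - S‖ := by
    refine (norm_mul_le _ _).trans ?_
    have := mul_le_mul_of_nonneg_right (norm_P_le j) (norm_nonneg (T - S))
    rwa [one_mul] at this
  have h3 : ‖S - T‖ = ‖T - S‖ := norm_sub_rev _ _
  calc ‖P j * (T - S) + (S - T)‖ ≤ ‖P j * (T - S)‖ + ‖S - T‖ := norm_add_le _ _
    _ < ε := by linarith

theorem P_mem_AA (i : ℕ) : P i ∈ AA := A0_le_AA i (P_mem i)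

theorem inner_dl_left (x : Om) (v : HX Om) : ⟪dl x, v⟫_ℂ = (v : Om → ℂ) x := by
  classical
  unfold dl
  rw [lp.inner_single_left]
  simp

/-- the compression by `E i x x` is a multiple of `E i x x` -/
theorem E_compress (i : ℕ) (x : Om) {T : BH} (hT : T ∈ A0 i) :
    E i x x * T * E i x x = ⟪dl x, T (dl x)⟫_ℂ • E i x x := by
  classical
  refine Submodule.span_induction
    (p := fun T _ => E i x x * T * E i x x = ⟪dl x, T (dl x)⟫_ℂ • E i x x) ?_ ?_ ?_ ?_ hT
  · rintro T ⟨a, b, hab, h0, rfl⟩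
    rw [E_mul i x x a b rfl hab, E_dl, inner_dl_left]
    by_cases hxa : agree i x a
    · rw [if_pos hxa, E_mul i x b x x (hxa.st_eq.trans hab) rfl]
      by_cases hbx : agree i b x
      · rw [if_pos hbx, if_pos ⟨agree_symm hbx, hab⟩, splice_self (agree_symm hxa), dl_apply_self,
          one_smul]
      · rw [if_neg hbx, if_neg (fun h => hbx (agree_symm h.1))]
        simp
    · rw [if_neg hxa, zero_mul]
      by_cases hxb : agree i x b
      · rw [if_pos ⟨hxb, hab⟩, dl_apply, if_neg, zero_smul]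
        intro h
        apply hxa
        rw [h]
        exact splice_agree i a x
      · rw [if_neg (fun h => hxb h.1)]
        simp
  · simp
  · intro S T _ _ hS hT
    rw [mul_add, add_mul, hS, hT, ← add_smul, ContinuousLinearMap.add_apply, inner_add_right]
  · intro r S _ hS
    rw [mul_smul_comm, smul_mul_assoc, hS, ContinuousLinearMap.smul_apply, inner_smul_right,
      smul_smul]

end Pool.Agent.R667.NM
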