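import Pool.Agent.R667.NM.Comb

set_option autoImplicit false

namespace Pool.Agent.R667.NM

/-- the general step -/
lemma step_succ (l : ℕ) (c a : ℕ → ℕ) (w : ℕ) (hw : w ≤ l + 1) :
    ∑ u ∈ Finset.range (l + 2), a u * mul0 l c u (w + 1) =
      (if w = l then a 0 * (MM l c * c (l + 1)) else 0) + MM l c * a (min w l + 1) +
        ∑ v ∈ Finset.range (l + 1), a (v + 1) := by
  rw [Finset.sum_range_succ' _ (l + 1)]
  have h0 : a 0 * mul0 l c 0 (w + 1) = (if w = l then a 0 * (MM l c * c (l + 1)) else 0) := by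
    simp only [mul0]
    split_ifs <;> simp
  have h1 : ∑ v ∈ Finset.range (l + 1), a (v + 1) * mul0 l c (v + 1) (w + 1) =
      MM l c * a (min w l + 1) + ∑ v ∈ Finset.range (l + 1), a (v + 1) := by
    have h2 : ∀ v ∈ Finset.range (l + 1), a (v + 1) * mul0 l c (v + 1) (w + 1) =
        (if v = min w l then MM l c * a (v + 1) else 0) + a (v + 1) := by
      intro v hv
      have hv' : v ≤ l := by
        have := Finset.mem_range.mp hv
        omega
      simp only [mul0]
      rw [if_pos ⟨hv', hw⟩]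
      split_ifs <;> ring
    rw [Finset.sum_congr rfl h2, Finset.sum_add_distrib, Finset.sum_ite_eq']
    rw [if_pos (Finset.mem_range.mpr (by have := min_le_right w l; omega))]
  rw [h0, h1]
  ring

lemma step_zero (l : ℕ) (c a : ℕ → ℕ) :
    ∑ u ∈ Finset.range (l + 2), a u * mul0 l c u 0 = a 0 := by
  rw [Finset.sum_range_succ' _ (l + 1)]
  have h2 : ∀ v ∈ Finset.range (l + 1), a (v + 1) * mul0 l c (v + 1) 0 = 0 := by
    intro v hv
    simp [mul0]
  rw [Finset.sum_eq_zero h2]
  simp [mul0]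

theorem cnt_zero (l : ℕ) : cnt l 0 = 1 := by
  induction l with
  | zero => simp [cnt]
  | succ l ih =>
    show ∑ u ∈ Finset.range (l + 2), cnt l u * mul0 l (cnt l) u 0 = 1
    rw [step_zero, ih]

lemma cnt_succ (l w : ℕ) (hw : w ≤ l + 1) :
    cnt (l + 1) (w + 1) =
      (if w = l then MM l (cnt l) * cnt l (l + 1) else 0) +
        MM l (cnt l) * cnt l (min w l + 1) + ∑ v ∈ Finset.range (l + 1), cnt l (v + 1) := by
  show ∑ u ∈ Finset.range (l + 2), cnt l u * mul0 l (cnt l) u (w + 1) = _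
  rw [step_succ l _ _ w hw, cnt_zero, one_mul]

theorem cnt_pos (l w : ℕ) (hw : w ≤ l + 1) : 1 ≤ cnt l w := by
  induction l generalizing w with
  | zero => simp [cnt, hw]
  | succ l ih =>
    rcases w with _ | w
    · rw [cnt_zero]
    · rw [cnt_succ l w (by omega)]
      have h1 : 1 ≤ ∑ v ∈ Finset.range (l + 1), cnt l (v + 1) := by
        calc 1 ≤ cnt l (0 + 1) := ih _ (by omega)
          _ ≤ _ := Finset.single_le_sum (f := fun v => cnt l (v + 1)) (fun _ _ => Nat.zero_le _)
              (Finset.mem_range.mpr (by omega))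
      omega

theorem m_wait (l : ℕ) : m l 0 0 = 1 := rfl

theorem m_noret (l v : ℕ) : m l (v + 1) 0 = 0 := rfl

theorem m_fin (l u w : ℕ) (h : l + 2 < w) : m l u w = 0 := by
  rcases w with _ | w
  · omega
  · rcases u with _ | v
    · simp only [m, mul0]
      rw [if_neg (by omega)]
    · simp only [m, mul0]
      rw [if_neg (by omega)]

theorem m_pos (l u w : ℕ) (hu : 1 ≤ u) (hu' : u ≤ l + 1) (hw : 1 ≤ w) (hw' : w ≤ l + 2) :
    1 ≤ m l u w := by
  rcases w with _ | w
  · omega
  · rcases u with _ | v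
    · omega
    · simp only [m, mul0]
      rw [if_pos (by omega)]
      omega

lemma MM_pos (l : ℕ) : 1 ≤ MM l (cnt l) := by
  unfold MM
  have h1 : 1 ≤ ∑ v ∈ Finset.range (l + 1), cnt l (v + 1) := by
    calc 1 ≤ cnt l (0 + 1) := cnt_pos _ _ (by omega)
      _ ≤ _ := Finset.single_le_sum (f := fun v => cnt l (v + 1)) (fun _ _ => Nat.zero_le _)
          (Finset.mem_range.mpr (by omega))
  exact Nat.mul_pos (by positivity) h1

theorem m_seed (l : ℕ) : 1 ≤ m l 0 (l + 1) := by
  have h1 : m l 0 (l + 1) = MM l (cnt l) * cnt l (l + 1) := by simp [m, mul0]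
  rw [h1]
  exact Nat.mul_pos (MM_pos l) (cnt_pos l (l + 1) le_rfl)

lemma NN_zero (i j : ℕ) : NN i j 0 = 0 := by
  induction j with
  | zero => simp [NN]
  | succ j ih =>
    show ∑ u ∈ Finset.range (i + j + 2), NN i j u * mul0 (i + j) (cnt (i + j)) u 0 = 0
    rw [step_zero, ih]

lemma NN_succ (i j w : ℕ) (hw : w ≤ i + j + 1) :
    NN i (j + 1) (w + 1) =
      MM (i + j) (cnt (i + j)) * NN i j (min w (i + j) + 1) +
        ∑ v ∈ Finset.range (i + j + 1), NN i j (v + 1) := by
  show ∑ u ∈ Finset.range (i + j + 2), NN i j u * mul0 (i + j) (cnt (i + j)) u (w + 1) = _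
  rw [step_succ (i + j) _ _ w hw, NN_zero]
  simp

lemma NN_le (i j w : ℕ) : NN i j w ≤ cnt (i + j) w := by
  induction j generalizing w with
  | zero =>
    show (if w = 0 then 0 else cnt i w) ≤ cnt i w
    split_ifs
    · exact Nat.zero_le _
    · exact le_rfl
  | succ j ih =>
    show ∑ u ∈ Finset.range (i + j + 2), NN i j u * m (i + j) u w ≤
      ∑ u ∈ Finset.range (i + j + 2), cnt (i + j) u * mul0 (i + j) (cnt (i + j)) u w
    exact Finset.sum_le_sum fun u _ => Nat.mul_le_mul_right _ (ih u)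

/-- the common facts of a step, as real numbers -/
lemma sums (i j : ℕ) : ∃ S SN M : ℝ, 0 ≤ SN ∧ SN ≤ S ∧ M = 2 ^ (i + j + 3) * S ∧ 1 ≤ S ∧
    (∀ w ≤ i + j + 1, (cnt (i + j + 1) (w + 1) : ℝ) =
      (if w = i + j then M * cnt (i + j) (i + j + 1) else 0) +
        M * cnt (i + j) (min w (i + j) + 1) + S) ∧
    (∀ w ≤ i + j + 1, (NN i (j + 1) (w + 1) : ℝ) = M * NN i j (min w (i + j) + 1) + SN) := by
  refine ⟨((∑ v ∈ Finset.range (i + j + 1), cnt (i + j) (v + 1) : ℕ) : ℝ),
    ((∑ v ∈ Finset.range (i + j + 1), NN i j (v + 1) : ℕ) : ℝ),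
    ((MM (i + j) (cnt (i + j)) : ℕ) : ℝ), by positivity, ?_, ?_, ?_, ?_, ?_⟩
  · exact_mod_cast Finset.sum_le_sum fun v _ => NN_le i j (v + 1)
  · unfold MM
    push_cast
    rfl
  · have h1 : 1 ≤ ∑ v ∈ Finset.range (i + j + 1), cnt (i + j) (v + 1) := by
      calc 1 ≤ cnt (i + j) (0 + 1) := cnt_pos _ _ (by omega)
        _ ≤ _ := Finset.single_le_sum (f := fun v => cnt (i + j) (v + 1))
            (fun _ _ => Nat.zero_le _) (Finset.mem_range.mpr (by omega))
    exact_mod_cast h1
  · intro w hw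
    rw [cnt_succ (i + j) w hw]
    split_ifs <;> push_cast <;> ring
  · intro w hw
    rw [NN_succ i j w hw]
    push_cast
    ring

/-- line `n < i` : almost all paths are not waiting at level `i` -/
theorem NN_lower (n i j : ℕ) (h : n < i) :
    (1 - (1 / 2 : ℝ) ^ (i + 2)) * (cnt (i + j) (n + 1) : ℝ) ≤ (NN i j (n + 1) : ℝ) := by
  have key : ∀ j : ℕ, (cnt (i + j) (n + 1) : ℝ) - (NN i j (n + 1) : ℝ) ≤
      ((1 / 2 : ℝ) ^ (i + 2) - (1 / 2 : ℝ) ^ (i + j + 2)) * (cnt (i + j) (n + 1) : ℝ) := by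
    intro j
    induction j with
    | zero =>
      have h1 : NN i 0 (n + 1) = cnt i (n + 1) := by
        show (if n + 1 = 0 then 0 else cnt i (n + 1)) = _
        rw [if_neg (by omega)]
      rw [h1]
      simp
    | succ j ih =>
      obtain ⟨S, SN, M, h1, h2, h3, h4, h5, h6⟩ := sums i j
      have h7 := h5 n (by omega)
      have h8 := h6 n (by omega)
      rw [if_neg (by omega), min_eq_left (by omega), zero_add] at h7
      rw [min_eq_left (by omega)] at h8
      rw [show i + (j + 1) = i + j + 1 from by ring, h7, h8]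
      have hC : (1 : ℝ) ≤ cnt (i + j) (n + 1) := by
        exact_mod_cast cnt_pos (i + j) (n + 1) (by omega)
      have hM : 0 < M := by rw [h3]; positivity
      have hS : S = (1 / 2 : ℝ) ^ (i + j + 3) * M := by
        rw [h3, ← mul_assoc, ← mul_pow]
        norm_num
      have hS2 : S ≤ (1 / 2 : ℝ) ^ (i + j + 3) * (M * cnt (i + j) (n + 1)) := by
        rw [hS]
        apply mul_le_mul_of_nonneg_left _ (by positivity)
        exact le_mul_of_one_le_right hM.le hC
      have hp : (1 / 2 : ℝ) ^ (i + j + 2) = 2 * (1 / 2 : ℝ) ^ (i + j + 3) := by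
        rw [pow_succ (1 / 2 : ℝ) (i + j + 2)]
        ring
      have hp2 : (1 / 2 : ℝ) ^ (i + j + 1 + 2) = (1 / 2 : ℝ) ^ (i + j + 3) := by
        congr 1
      have hp3 : (1 / 2 : ℝ) ^ (i + j + 3) ≤ (1 / 2 : ℝ) ^ (i + 2) :=
        pow_le_pow_of_le_one (by norm_num) (by norm_num) (by omega)
      rw [hp2]
      have h9 := mul_le_mul_of_nonneg_left ih hM.le
      have hSpos : 0 ≤ S := by linarith
      nlinarith [mul_nonneg (sub_nonneg.mpr hp3) hSpos]
  have h1 := key j
  have h2 : 0 ≤ (1 / 2 : ℝ) ^ (i + j + 2) * (cnt (i + j) (n + 1) : ℝ) := by positivity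
  nlinarith

/-- line `n ≥ i` (created at level `n+1 ≤ i + j`): about half of the paths are waiting at level `i` -/
theorem NN_upper (n i j : ℕ) (h : i ≤ n) (h' : n < i + j) :
    (NN i j (n + 1) : ℝ) ≤ (1 / 2 + (1 / 2 : ℝ) ^ (n + 2)) * (cnt (i + j) (n + 1) : ℝ) := by
  have key : ∀ j : ℕ, n < i + j → (NN i j (n + 1) : ℝ) ≤
      (1 / 2 + (1 / 2 : ℝ) ^ (n + 2) - (1 / 2 : ℝ) ^ (i + j + 2)) *
        (cnt (i + j) (n + 1) : ℝ) := by
    intro j
    induction j with
    | zero => intro hj; omega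
    | succ j ih =>
      intro hj
      obtain ⟨S, SN, M, h1, h2, h3, h4, h5, h6⟩ := sums i j
      have h7 := h5 n (by omega)
      have h8 := h6 n (by omega)
      have hC : (1 : ℝ) ≤ cnt (i + j) (n + 1) := by
        exact_mod_cast cnt_pos (i + j) (n + 1) (by omega)
      have hM : 0 < M := by rw [h3]; positivity
      have hS : S = (1 / 2 : ℝ) ^ (i + j + 3) * M := by
        rw [h3, ← mul_assoc, ← mul_pow]
        norm_num
      have hS2 : S ≤ (1 / 2 : ℝ) ^ (i + j + 3) * (M * cnt (i + j) (n + 1)) := by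
        rw [hS]
        apply mul_le_mul_of_nonneg_left _ (by positivity)
        exact le_mul_of_one_le_right hM.le hC
      have hp : (1 / 2 : ℝ) ^ (i + j + 2) = 2 * (1 / 2 : ℝ) ^ (i + j + 3) := by
        rw [pow_succ (1 / 2 : ℝ) (i + j + 2)]
        ring
      have hp2 : (1 / 2 : ℝ) ^ (i + j + 1 + 2) = (1 / 2 : ℝ) ^ (i + j + 3) := by
        congr 1
      have hSpos : 0 ≤ S := by linarith
      rw [show i + (j + 1) = i + j + 1 from by ring, h7, h8, hp2]
      by_cases hn : n = i + j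
      · rw [if_pos hn, min_eq_left (by omega)]
        have hN : (NN i j (n + 1) : ℝ) ≤ cnt (i + j) (n + 1) := by
          exact_mod_cast NN_le i j (n + 1)
        have hMN := mul_le_mul_of_nonneg_left hN hM.le
        subst hn
        rw [hp]
        have e1 : 0 ≤ (1 / 2 : ℝ) ^ (i + j + 3) * S := by positivity
        have e2 : 0 ≤ (1 / 2 : ℝ) ^ (i + j + 3) * (M * cnt (i + j) (i + j + 1)) := by positivity
        nlinarith
      · rw [if_neg hn, min_eq_left (by omega), zero_add]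
        have ih' := ih (by omega)
        have h9 := mul_le_mul_of_nonneg_left ih' hM.le
        have hp3 : (1 / 2 : ℝ) ^ (i + j + 3) ≤ (1 / 2 : ℝ) ^ (n + 2) :=
          pow_le_pow_of_le_one (by norm_num) (by norm_num) (by omega)
        rw [hp] at h9
        have e3 : 0 ≤ ((1 / 2 : ℝ) ^ (n + 2) - (1 / 2 : ℝ) ^ (i + j + 3)) * S :=
          mul_nonneg (sub_nonneg.mpr hp3) hSpos
        linarith
  have h1 := key j h'
  have h2 : 0 ≤ (1 / 2 : ℝ) ^ (i + j + 2) * (cnt (i + j) (n + 1) : ℝ) := by positivity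
  nlinarith

end Pool.Agent.R667.NM
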