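import Mathlib

/-!
Statement-level definitions for MP_86e2e0_an.
-/

namespace Pool.Agent.R667.NM

open scoped MultiplierAlgebra
open Filter Topology

section
variable {A : Type*} [NonUnitalCStarAlgebra A]

/-- positive elements of a C*-algebra -/
def IsPos (a : A) : Prop := ∃ b : A, a = star b * b

/-- positive contractions -/
def IsPosContr (a : A) : Prop := IsPos a ∧ ‖a‖ ≤ 1

/-- the shifted sequence: `sh e 0 = 0` and `sh e (k+1) = e k`; so `sh e k` is `e_{k-1}` with the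
convention `e_k = 0` for `k < 0`, and `sh (sh e) k` is `e_{k-2}` -/
def sh (e : ℕ → A) : ℕ → A
  | 0 => 0
  | (k + 1) => e k

/-- good approximate identities; the interval `I` is `[i,j]` -/
structure GoodAI (e : ℕ → A) : Prop where
  contr : ∀ n, IsPosContr (e n)
  left : ∀ a : A, Tendsto (fun n => e n * a) atTop (𝓝 a)
  right : ∀ a : A, Tendsto (fun n => a * e n) atTop (𝓝 a)
  mul : ∀ n, e (n + 1) * e n = e n
  norm_sub : ∀ n, ‖e (n + 1) - e n‖ = 1
  bump : ∃ h : ℕ → ℕ → A,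
    (∀ i j, i ≤ j → IsPosContr (h i j) ∧ IsPos (e (j + 1) - sh (sh e) i - h i j) ∧
      h i j * (e j - sh e i) = e j - sh e i) ∧
    (∀ i j i' j', i ≤ j → i' ≤ j' → j + 1 < i' → h i j * h i' j' = 0)

/-- nonmeagre ideals of the multiplier algebra: for every good approximate identity `e` and every
partition of `ℕ` into consecutive finite intervals `I_n = [b n, b (n+1))` there is an infinite set
`L` such that the strict sum `x` of the elements `g_{I_n}`, `n ∈ L`, lies in the ideal -/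
def Nonmeagre (J : TwoSidedIdeal 𝓜(ℂ, A)) : Prop :=
  ∀ e : ℕ → A, GoodAI e → ∀ b : ℕ → ℕ, StrictMono b → b 0 = 0 →
    ∃ L : Set ℕ, L.Infinite ∧ ∃ x ∈ J, ∀ a : A,
      HasSum (fun n : L => (sh e (b (n + 1)) - sh e (b n)) * a) (x.fst a) ∧
      HasSum (fun n : L => a * (sh e (b (n + 1)) - sh e (b n))) (x.snd a)

end

/-- simple C*-algebras -/
def IsSimpleC (A : Type*) [NonUnitalCStarAlgebra A] : Prop :=
  Nontrivial A ∧ ∀ I : TwoSidedIdeal A, IsClosed (I : Set A) → I = ⊥ ∨ I = ⊤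

/-- sequences of tracial functionals (only real parts) with a jump of the norm in the limit -/
structure TD (A : Type*) [NonUnitalCStarAlgebra A] where
  t : ℕ → A → ℝ
  p : ℕ → A
  add : ∀ n a b, t n (a + b) = t n a + t n b
  bd : ∀ n a, |t n a| ≤ ‖a‖
  pos : ∀ n a, 0 ≤ t n (star a * a)
  star_t : ∀ n a, t n (star a) = t n a
  cs : ∀ n a b, t n (star b * (star a * a) * b) ≤ ‖a‖ ^ 2 * t n (star b * b)
  comm : ∀ n a b, t n (a * b) = t n (b * a)
  p_star : ∀ k, star (p k) = p k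
  p_idem : ∀ k, p k * p k = p k
  p_norm : ∀ k, ‖p k‖ ≤ 1
  p_lim : ∀ a, Tendsto (fun k => p k * a) atTop (𝓝 a)
  low : ∀ n k, n < k → 1 - (1 / 2 : ℝ) ^ (k + 2) ≤ t n (p k)
  upp : ∀ n k, k ≤ n → t n (p k) ≤ 1 / 2 + (1 / 2 : ℝ) ^ (n + 2)

end Pool.Agent.R667.NM
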