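import Mathlib
import Pool.Agent.R667.NM.Stmt

/-!
Part I: the ideal given by a sequence of traces.
-/

namespace Pool.Agent.R667.NM

open scoped MultiplierAlgebra
open Filter Topology

variable {A : Type*} [NonUnitalCStarAlgebra A]

namespace TD

variable (D : TD A)

lemma t_zero (n : ℕ) : D.t n 0 = 0 := by
  have := D.add n 0 0
  rw [add_zero] at this
  linarith

/-- the trace as an additive map -/
def th (n : ℕ) : A →+ ℝ where
  toFun := D.t n
  map_zero' := D.t_zero n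
  map_add' := D.add n

lemma th_apply (n : ℕ) (a : A) : D.th n a = D.t n a := rfl

lemma t_neg (n : ℕ) (a : A) : D.t n (-a) = - D.t n a := map_neg (D.th n) a

lemma t_sub (n : ℕ) (a b : A) : D.t n (a - b) = D.t n a - D.t n b := map_sub (D.th n) a b

lemma t_cont (n : ℕ) : Continuous (D.t n) := by
  have : LipschitzWith 1 (D.t n) := by
    refine LipschitzWith.of_dist_le_mul fun a b => ?_
    rw [Real.dist_eq, dist_eq_norm, ← D.t_sub]
    simpa using D.bd n (a - b)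
  exact this.continuous

/-- the square seminorm -/
def q (n : ℕ) (a : A) : ℝ := D.t n (star a * a)

lemma q_nonneg (n : ℕ) (a : A) : 0 ≤ D.q n a := D.pos n a

lemma q_cont (n : ℕ) : Continuous (D.q n) :=
  (D.t_cont n).comp (continuous_star.mul continuous_id)

lemma q_le (n : ℕ) (a : A) : D.q n a ≤ ‖a‖ ^ 2 := by
  have h := (le_abs_self _).trans (D.bd n (star a * a))
  rw [CStarRing.norm_star_mul_self] at h
  unfold q
  nlinarith

lemma q_add_le (n : ℕ) (a b : A) : D.q n (a + b) ≤ 2 * D.q n a + 2 * D.q n b := by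
  have h1 : D.q n (a + b) + D.q n (a - b) = 2 * D.q n a + 2 * D.q n b := by
    unfold q
    rw [← D.add]
    have : star (a + b) * (a + b) + star (a - b) * (a - b)
        = (star a * a + star a * a) + (star b * b + star b * b) := by
      simp only [star_add, star_sub, add_mul, mul_add, sub_mul, mul_sub]
      abel
    rw [this, D.add, D.add, D.add]
    ring
  have h2 := D.q_nonneg n (a - b)
  linarith

lemma q_neg (n : ℕ) (a : A) : D.q n (-a) = D.q n a := by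
  unfold q; simp

lemma q_mul_le (n : ℕ) (a b : A) : D.q n (a * b) ≤ ‖a‖ ^ 2 * D.q n b := by
  have := D.cs n a b
  unfold q
  rw [star_mul]
  simpa [mul_assoc] using this

end TD

/-- left multiplication by a multiplier is right `A`-linear -/
lemma fst_mul (z : 𝓜(ℂ, A)) (a b : A) : z.fst (a * b) = z.fst a * b := by
  have h : ∀ c : A, c * (z.fst (a * b) - z.fst a * b) = 0 := by
    intro c
    rw [mul_sub, ← z.central, ← mul_assoc c, ← z.central, mul_assoc, sub_self]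
  have h2 := h (star (z.fst (a * b) - z.fst a * b))
  rw [CStarRing.star_mul_self_eq_zero_iff] at h2
  exact sub_eq_zero.1 h2

lemma norm_fst_apply_le (z : 𝓜(ℂ, A)) (a : A) : ‖z.fst a‖ ≤ ‖z‖ * ‖a‖ := by
  have := z.fst.le_opNorm a
  rwa [DoubleCentralizer.norm_fst] at this

namespace TD

variable (D : TD A)

lemma q_fst_le (n : ℕ) (z : 𝓜(ℂ, A)) (c : A) : D.q n (z.fst c) ≤ ‖z‖ ^ 2 * D.q n c := by
  have hlim : Tendsto (fun k => D.q n (z.fst (D.p k * c))) atTop (𝓝 (D.q n (z.fst c))) :=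
    (((D.q_cont n).comp z.fst.continuous).tendsto c).comp (D.p_lim c)
  refine le_of_tendsto' hlim fun k => ?_
  rw [fst_mul]
  refine (D.q_mul_le n _ _).trans ?_
  have h1 : ‖z.fst (D.p k)‖ ≤ ‖z‖ := by
    refine (norm_fst_apply_le z _).trans ?_
    have := D.p_norm k
    have := norm_nonneg z
    nlinarith
  have h2 : ‖z.fst (D.p k)‖ ^ 2 ≤ ‖z‖ ^ 2 := by gcongr
  exact mul_le_mul_of_nonneg_right h2 (D.q_nonneg n c)

/-- the set of the ideal -/
def Jset : Set 𝓜(ℂ, A) := {y | ∀ ε : ℝ, 0 < ε → ∃ a : A, ∀ᶠ n in (hyperfilter ℕ : Filter ℕ),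
  ∀ b : A, D.q n (y.fst b - a * b) ≤ ε * ‖b‖ ^ 2}

lemma coe_mem (a : A) : (a : 𝓜(ℂ, A)) ∈ D.Jset := by
  intro ε hε
  refine ⟨a, Eventually.of_forall fun n b => ?_⟩
  have h : ((a : 𝓜(ℂ, A)).fst b - a * b) = 0 := by
    rw [DoubleCentralizer.coe_fst]
    simp
  rw [h]
  unfold q
  simp only [mul_zero, D.t_zero]
  positivity

lemma zero_mem : (0 : 𝓜(ℂ, A)) ∈ D.Jset := by
  intro ε hε
  refine ⟨0, Eventually.of_forall fun n b => ?_⟩
  have h : ((0 : 𝓜(ℂ, A)).fst b - 0 * b) = 0 := by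
    rw [DoubleCentralizer.zero_fst]
    simp
  rw [h]
  unfold q
  simp only [mul_zero, D.t_zero]
  positivity

lemma add_mem {x y : 𝓜(ℂ, A)} (hx : x ∈ D.Jset) (hy : y ∈ D.Jset) : x + y ∈ D.Jset := by
  intro ε hε
  obtain ⟨a, ha⟩ := hx (ε / 4) (by positivity)
  obtain ⟨b, hb⟩ := hy (ε / 4) (by positivity)
  refine ⟨a + b, ?_⟩
  filter_upwards [ha, hb] with n h1 h2 c
  have h : (x + y).fst c - (a + b) * c = (x.fst c - a * c) + (y.fst c - b * c) := by
    rw [DoubleCentralizer.add_fst, _root_.add_apply, add_mul]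
    abel
  rw [h]
  refine (D.q_add_le n _ _).trans ?_
  have := h1 c
  have := h2 c
  linarith

lemma neg_mem {x : 𝓜(ℂ, A)} (hx : x ∈ D.Jset) : -x ∈ D.Jset := by
  intro ε hε
  obtain ⟨a, ha⟩ := hx ε hε
  refine ⟨-a, ?_⟩
  filter_upwards [ha] with n h1 c
  have h : (-x).fst c - (-a) * c = -(x.fst c - a * c) := by
    rw [DoubleCentralizer.neg_fst, _root_.neg_apply, neg_mul]
    abel
  rw [h, D.q_neg]
  exact h1 c

lemma mul_mem_left {z y : 𝓜(ℂ, A)} (hy : y ∈ D.Jset) : z * y ∈ D.Jset := by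
  intro ε hε
  obtain ⟨a, ha⟩ := hy (ε / (‖z‖ ^ 2 + 1)) (by positivity)
  refine ⟨z.fst a, ?_⟩
  filter_upwards [ha] with n h1 c
  have h : (z * y).fst c - z.fst a * c = z.fst (y.fst c - a * c) := by
    rw [DoubleCentralizer.mul_fst, map_sub, fst_mul]
    rfl
  rw [h]
  refine (D.q_fst_le n z _).trans ?_
  have h2 := h1 c
  have h3 : ‖z‖ ^ 2 * D.q n (y.fst c - a * c) ≤ ‖z‖ ^ 2 * (ε / (‖z‖ ^ 2 + 1) * ‖c‖ ^ 2) :=
    mul_le_mul_of_nonneg_left h2 (by positivity)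
  refine h3.trans ?_
  have h4 : ‖z‖ ^ 2 * (ε / (‖z‖ ^ 2 + 1) * ‖c‖ ^ 2)
      = (‖z‖ ^ 2 / (‖z‖ ^ 2 + 1)) * (ε * ‖c‖ ^ 2) := by ring
  rw [h4]
  have h5 : ‖z‖ ^ 2 / (‖z‖ ^ 2 + 1) ≤ 1 := by
    rw [div_le_one (by positivity)]; linarith
  have h6 : 0 ≤ ε * ‖c‖ ^ 2 := by positivity
  nlinarith

lemma mul_mem_right {y z : 𝓜(ℂ, A)} (hy : y ∈ D.Jset) : y * z ∈ D.Jset := by
  intro ε hε
  obtain ⟨a, ha⟩ := hy (ε / (‖z‖ ^ 2 + 1)) (by positivity)
  refine ⟨z.snd a, ?_⟩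
  filter_upwards [ha] with n h1 c
  have h : (y * z).fst c - z.snd a * c = y.fst (z.fst c) - a * z.fst c := by
    rw [DoubleCentralizer.mul_fst, z.central]
    rfl
  rw [h]
  refine (h1 (z.fst c)).trans ?_
  have h2 : ‖z.fst c‖ ^ 2 ≤ ‖z‖ ^ 2 * ‖c‖ ^ 2 := by
    rw [← mul_pow]
    have := norm_fst_apply_le z c
    gcongr
  have h3 : ε / (‖z‖ ^ 2 + 1) * ‖z.fst c‖ ^ 2 ≤ ε / (‖z‖ ^ 2 + 1) * (‖z‖ ^ 2 * ‖c‖ ^ 2) :=
    mul_le_mul_of_nonneg_left h2 (by positivity)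
  refine h3.trans ?_
  have h4 : ε / (‖z‖ ^ 2 + 1) * (‖z‖ ^ 2 * ‖c‖ ^ 2)
      = (‖z‖ ^ 2 / (‖z‖ ^ 2 + 1)) * (ε * ‖c‖ ^ 2) := by ring
  rw [h4]
  have h5 : ‖z‖ ^ 2 / (‖z‖ ^ 2 + 1) ≤ 1 := by
    rw [div_le_one (by positivity)]; linarith
  have h6 : 0 ≤ ε * ‖c‖ ^ 2 := by positivity
  nlinarith

/-- the ideal -/
noncomputable def J : TwoSidedIdeal 𝓜(ℂ, A) :=
  TwoSidedIdeal.mk' D.Jset D.zero_mem D.add_mem D.neg_mem D.mul_mem_left D.mul_mem_right

lemma mem_J (x : 𝓜(ℂ, A)) : x ∈ D.J ↔ x ∈ D.Jset := TwoSidedIdeal.mem_mk' _ _ _ _ _ _ _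

lemma coe_J : (D.J : Set 𝓜(ℂ, A)) = D.Jset := TwoSidedIdeal.coe_mk' _ _ _ _ _ _

lemma isClosed_J : IsClosed (D.J : Set 𝓜(ℂ, A)) := by
  rw [coe_J]
  refine isClosed_of_closure_subset fun y hy => ?_
  intro ε hε
  obtain ⟨y', hy', hd⟩ := Metric.mem_closure_iff.1 hy (Real.sqrt (ε / 4)) (by positivity)
  obtain ⟨a, ha⟩ := hy' (ε / 4) (by positivity)
  refine ⟨a, ?_⟩
  filter_upwards [ha] with n h1 c
  have h : y.fst c - a * c = (y - y').fst c + (y'.fst c - a * c) := by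
    rw [DoubleCentralizer.sub_fst, _root_.sub_apply]
    abel
  rw [h]
  refine (D.q_add_le n _ _).trans ?_
  have h2 := h1 c
  have h3 : D.q n ((y - y').fst c) ≤ ε / 4 * ‖c‖ ^ 2 := by
    refine (D.q_le n _).trans ?_
    have h4 := norm_fst_apply_le (y - y') c
    have h5 : ‖y - y'‖ ^ 2 ≤ ε / 4 := by
      rw [dist_eq_norm] at hd
      have := Real.sq_sqrt (show (0 : ℝ) ≤ ε / 4 by positivity)
      rw [← this]
      gcongr
    calc ‖(y - y').fst c‖ ^ 2 ≤ (‖y - y'‖ * ‖c‖) ^ 2 := by gcongr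
      _ = ‖y - y'‖ ^ 2 * ‖c‖ ^ 2 := by ring
      _ ≤ ε / 4 * ‖c‖ ^ 2 := by gcongr
  linarith

lemma p_lim_right (a : A) : Tendsto (fun k => a * D.p k) atTop (𝓝 a) := by
  have h := (continuous_star.tendsto (star a)).comp (D.p_lim (star a))
  rw [star_star] at h
  refine h.congr fun k => ?_
  simp [D.p_star]

lemma one_not_mem : (1 : 𝓜(ℂ, A)) ∉ D.Jset := by
  intro h
  obtain ⟨a, ha⟩ := h (1 / 4) (by norm_num)
  -- a projection close to a unit for `a`
  obtain ⟨k0, hk0⟩ := (Metric.tendsto_atTop.1 (D.p_lim a)) (1 / 32) (by norm_num)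
  have hk := hk0 k0 le_rfl
  have hev : ∀ᶠ n in (hyperfilter ℕ : Filter ℕ), max k0 1 ≤ n :=
    Nat.hyperfilter_le_atTop (eventually_ge_atTop _)
  obtain ⟨n, h1, hn⟩ := (ha.and hev).exists
  have hnk : k0 ≤ n := le_trans (le_max_left _ _) hn
  have hn1 : 1 ≤ n := le_trans (le_max_right _ _) hn
  -- step 1
  have hstep1 : 1 - 2 * D.t n a + D.q n a ≤ 1 / 4 := by
    have hlim : Tendsto (fun k => (1 - (1 / 2 : ℝ) ^ (k + 2)) - 2 * D.t n (a * D.p k)
        + D.q n (a * D.p k)) atTop (𝓝 ((1 - 0) - 2 * D.t n a + D.q n a)) := by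
      have l1 : Tendsto (fun k => D.t n (a * D.p k)) atTop (𝓝 (D.t n a)) :=
        ((D.t_cont n).tendsto a).comp (D.p_lim_right a)
      have l2 : Tendsto (fun k => D.q n (a * D.p k)) atTop (𝓝 (D.q n a)) :=
        ((D.q_cont n).tendsto a).comp (D.p_lim_right a)
      have l3 : Tendsto (fun k : ℕ => (1 / 2 : ℝ) ^ (k + 2)) atTop (𝓝 0) :=
        (tendsto_pow_atTop_nhds_zero_of_lt_one (by norm_num) (by norm_num)).comp
          (tendsto_add_atTop_nat 2)
      exact ((tendsto_const_nhds.sub l3).sub (l1.const_mul 2)).add l2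
    rw [sub_zero] at hlim
    refine le_of_tendsto hlim ?_
    filter_upwards [eventually_gt_atTop n] with k hkn
    have hb := h1 (D.p k)
    have hone : (1 : 𝓜(ℂ, A)).fst (D.p k) = D.p k := by
      rw [DoubleCentralizer.one_fst]; rfl
    rw [hone] at hb
    have hp := D.p_norm k
    have hp2 : ‖D.p k‖ ^ 2 ≤ 1 := by
      have := norm_nonneg (D.p k)
      nlinarith
    have hexp : D.q n (D.p k - a * D.p k)
        = D.t n (D.p k) - 2 * D.t n (a * D.p k) + D.q n (a * D.p k) := by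
      unfold q
      have e1 : star (D.p k - a * D.p k) * (D.p k - a * D.p k)
          = D.p k - D.p k * (a * D.p k) - star (D.p k * (a * D.p k))
            + star (a * D.p k) * (a * D.p k) := by
        simp only [star_sub, star_mul, D.p_star, sub_mul, mul_sub, D.p_idem]
        simp only [mul_assoc]
        abel
      rw [e1, D.add, D.t_sub, D.t_sub, D.star_t, D.comm n (D.p k) (a * D.p k), mul_assoc,
        D.p_idem]
      ring
    rw [hexp] at hb
    have hl := D.low n k hkn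
    nlinarith
  -- step 2
  have hstep2 : 2 * D.t n a ≤ 1 / 2 + (1 / 2 : ℝ) ^ (n + 2) + D.q n a + 2 * (1 / 32) := by
    have h0 := D.q_nonneg n (D.p k0 - a)
    have hexp : D.q n (D.p k0 - a)
        = D.t n (D.p k0) - 2 * D.t n (D.p k0 * a) + D.q n a := by
      unfold q
      have e1 : star (D.p k0 - a) * (D.p k0 - a)
          = D.p k0 - D.p k0 * a - star (D.p k0 * a) + star a * a := by
        simp only [star_sub, star_mul, D.p_star, sub_mul, mul_sub, D.p_idem]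
        abel
      rw [e1, D.add, D.t_sub, D.t_sub, D.star_t]
      ring
    rw [hexp] at h0
    have hu := D.upp n k0 hnk
    have hd : |D.t n (D.p k0 * a) - D.t n a| ≤ 1 / 32 := by
      rw [← D.t_sub]
      refine (D.bd n _).trans ?_
      rw [dist_eq_norm] at hk
      exact hk.le
    rw [abs_le] at hd
    linarith [hd.1, hd.2]
  have hpow : (1 / 2 : ℝ) ^ (n + 2) ≤ 1 / 8 := by
    calc (1 / 2 : ℝ) ^ (n + 2) ≤ (1 / 2 : ℝ) ^ (1 + 2) :=
          pow_le_pow_of_le_one (by norm_num) (by norm_num) (by omega)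
      _ = 1 / 8 := by norm_num
  linarith

lemma J_ne_top : D.J ≠ ⊤ := by
  intro h
  apply D.one_not_mem
  rw [← D.mem_J, h]
  trivial

end TD

end Pool.Agent.R667.NM
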