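import Mathlib
import Pool.Agent.R667.NM.PartI

/-!
Part I, second half: the ideal is nonmeagre.
-/

namespace Pool.Agent.R667.NM

open scoped MultiplierAlgebra
open Filter Topology

variable {A : Type*} [NonUnitalCStarAlgebra A]

/-! ### Selection of the sequence -/

section select

variable (mm : ℕ → ℕ → ℝ)

/-- for most `n`, all finite sums along `φ` are at most `c` -/
def QQ (φ : ℕ → ℕ) (c : ℝ) : Prop :=
  ∀ᶠ n in (hyperfilter ℕ : Filter ℕ), ∀ N, ∑ j ∈ Finset.range N, mm n (φ j) ≤ c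

lemma QQ_half (h0 : ∀ n k, 0 ≤ mm n k) {φ : ℕ → ℕ} {c : ℝ} (h : QQ mm φ c) :
    QQ mm (fun j => φ (2 * j)) (c / 2) ∨ QQ mm (fun j => φ (2 * j + 1)) (c / 2) := by
  unfold QQ at *
  rw [← Ultrafilter.eventually_or]
  filter_upwards [h] with n hn
  by_contra hcon
  push Not at hcon
  obtain ⟨⟨N1, h1⟩, ⟨N2, h2⟩⟩ := hcon
  have hN1 : ∑ j ∈ Finset.range N1, mm n (φ (2 * j))
      ≤ ∑ j ∈ Finset.range (max N1 N2), mm n (φ (2 * j)) :=
    Finset.sum_le_sum_of_subset_of_nonneg (Finset.range_mono (le_max_left _ _))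
      (fun _ _ _ => h0 _ _)
  have hN2 : ∑ j ∈ Finset.range N2, mm n (φ (2 * j + 1))
      ≤ ∑ j ∈ Finset.range (max N1 N2), mm n (φ (2 * j + 1)) :=
    Finset.sum_le_sum_of_subset_of_nonneg (Finset.range_mono (le_max_right _ _))
      (fun _ _ _ => h0 _ _)
  have hsum : ∀ M : ℕ, ∑ j ∈ Finset.range (2 * M), mm n (φ j)
      = ∑ j ∈ Finset.range M, mm n (φ (2 * j)) + ∑ j ∈ Finset.range M, mm n (φ (2 * j + 1)) := by
    intro M
    induction M with
    | zero => simp
    | succ M ih =>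
      rw [show 2 * (M + 1) = 2 * M + 1 + 1 by ring, Finset.sum_range_succ, Finset.sum_range_succ,
        ih, Finset.sum_range_succ, Finset.sum_range_succ]
      ring
  have := hn (2 * max N1 N2)
  rw [hsum] at this
  linarith

open Classical in
/-- successive halvings of the even numbers -/
noncomputable def sel : ℕ → ℕ → ℕ
  | 0 => fun j => 2 * j
  | (K + 1) => if QQ mm (fun j => sel K (2 * j)) ((1 / 2 : ℝ) ^ (K + 1))
      then fun j => sel K (2 * j) else fun j => sel K (2 * j + 1)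

open Classical in
lemma sel_succ_eq (K : ℕ) : sel mm (K + 1) =
    if QQ mm (fun j => sel mm K (2 * j)) ((1 / 2 : ℝ) ^ (K + 1))
      then fun j => sel mm K (2 * j) else fun j => sel mm K (2 * j + 1) := rfl

lemma sel_succ (K : ℕ) : ∃ r, r ≤ 1 ∧ sel mm (K + 1) = fun j => sel mm K (2 * j + r) := by
  rw [sel_succ_eq]
  split_ifs with h
  · exact ⟨0, by omega, rfl⟩
  · exact ⟨1, le_rfl, rfl⟩

lemma sel_mono (K : ℕ) : StrictMono (sel mm K) := by
  induction K with
  | zero => intro a b h; show 2 * a < 2 * b; omega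
  | succ K ih =>
    obtain ⟨r, _, hr'⟩ := sel_succ mm K
    rw [hr']
    intro a b h
    exact ih (by omega)

lemma sel_QQ (h0 : ∀ n k, 0 ≤ mm n k) (h1 : ∀ n N, ∑ k ∈ Finset.range N, mm n k ≤ 1) (K : ℕ) :
    QQ mm (sel mm K) ((1 / 2 : ℝ) ^ K) := by
  induction K with
  | zero =>
    refine Eventually.of_forall fun n N => ?_
    rw [pow_zero]
    refine le_trans ?_ (h1 n (2 * N))
    have : ∑ j ∈ Finset.range N, mm n (sel mm 0 j)
        = ∑ k ∈ (Finset.range N).image (fun j => 2 * j), mm n k := by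
      rw [Finset.sum_image]
      · rfl
      · intro a _ b _ hab
        simpa using hab
    rw [this]
    refine Finset.sum_le_sum_of_subset_of_nonneg ?_ (fun _ _ _ => h0 _ _)
    intro k hk
    simp only [Finset.mem_image, Finset.mem_range] at hk ⊢
    obtain ⟨j, hj, rfl⟩ := hk
    omega
  | succ K ih =>
    have h := QQ_half mm h0 ih
    rw [show (1 / 2 : ℝ) ^ K / 2 = (1 / 2 : ℝ) ^ (K + 1) by ring] at h
    rw [sel_succ_eq]
    split_ifs with hif
    · exact hif
    · rcases h with h | h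
      · exact absurd h hif
      · exact h

lemma sel_sub {K i : ℕ} (h : K ≤ i) (j : ℕ) : ∃ j', sel mm i j = sel mm K j' := by
  induction i, h using Nat.le_induction generalizing j with
  | base => exact ⟨j, rfl⟩
  | succ i _ ih =>
    obtain ⟨r, _, hr⟩ := sel_succ mm i
    rw [hr]
    exact ih _

/-- the diagonal sequence -/
noncomputable def psi (j : ℕ) : ℕ := sel mm j j

lemma psi_mono : StrictMono (psi mm) := by
  refine strictMono_nat_of_lt_succ fun j => ?_
  obtain ⟨r, _, hr⟩ := sel_succ mm j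
  unfold psi
  rw [hr]
  exact sel_mono mm j (by omega)

lemma psi_even (j : ℕ) : ∃ i, psi mm j = 2 * i := by
  obtain ⟨i, hi⟩ := sel_sub mm (Nat.zero_le j) j
  exact ⟨i, hi⟩

lemma psi_gap {i j : ℕ} (h : i < j) : psi mm i + 2 ≤ psi mm j := by
  obtain ⟨a, ha⟩ := psi_even mm i
  obtain ⟨b, hb⟩ := psi_even mm j
  have := psi_mono mm h
  omega

lemma psi_tail (h0 : ∀ n k, 0 ≤ mm n k) (h1 : ∀ n N, ∑ k ∈ Finset.range N, mm n k ≤ 1) (K : ℕ) :
    ∀ᶠ n in (hyperfilter ℕ : Filter ℕ), ∀ N, ∑ j ∈ Finset.Ico K N, mm n (psi mm j)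
      ≤ (1 / 2 : ℝ) ^ K := by
  filter_upwards [sel_QQ mm h0 h1 K] with n hn N
  have hs : ∀ j, ∃ j', K ≤ j → psi mm j = sel mm K j' := by
    intro j
    by_cases hj : K ≤ j
    · obtain ⟨j', hj'⟩ := sel_sub mm hj j
      exact ⟨j', fun _ => hj'⟩
    · exact ⟨0, fun h => absurd h hj⟩
  choose σ hσ using hs
  have hinj : Set.InjOn σ (Finset.Ico K N : Finset ℕ) := by
    intro a ha b hb hab
    have ha' : K ≤ a := (Finset.mem_Ico.1 (Finset.mem_coe.1 ha)).1
    have hb' : K ≤ b := (Finset.mem_Ico.1 (Finset.mem_coe.1 hb)).1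
    have : psi mm a = psi mm b := by rw [hσ a ha', hσ b hb', hab]
    exact (psi_mono mm).injective this
  have h2 : ∑ j ∈ Finset.Ico K N, mm n (psi mm j)
      = ∑ i ∈ (Finset.Ico K N).image σ, mm n (sel mm K i) := by
    rw [Finset.sum_image hinj]
    refine Finset.sum_congr rfl fun j hj => ?_
    rw [← hσ j (Finset.mem_Ico.1 hj).1]
  rw [h2]
  obtain ⟨M, hM⟩ : ∃ M, (Finset.Ico K N).image σ ⊆ Finset.range M := by
    refine ⟨((Finset.Ico K N).image σ).sup id + 1, fun i hi => ?_⟩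
    rw [Finset.mem_range]
    exact Nat.lt_succ_of_le (Finset.le_sup (f := id) hi)
  exact (Finset.sum_le_sum_of_subset_of_nonneg hM (fun _ _ _ => h0 _ _)).trans (hn M)

end select

/-! ### norms of orthogonal sums -/

lemma orth_sum_sq {ι : Type*} (s : Finset ι) (y : ι → A)
    (ho : ∀ i ∈ s, ∀ j ∈ s, i ≠ j → y i * y j = 0) :
    (∑ i ∈ s, y i) * (∑ i ∈ s, y i) = ∑ i ∈ s, y i * y i := by
  classical
  rw [Finset.sum_mul_sum]
  refine Finset.sum_congr rfl fun i hi => ?_
  rw [Finset.sum_eq_single_of_mem i hi]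
  intro j hj hji
  exact ho i hi j hj (Ne.symm hji)

lemma orth_norm_pow {ι : Type*} (s : Finset ι) (k : ℕ) : ∀ (y : ι → A) (C : ℝ), 0 ≤ C →
    (∀ i ∈ s, star (y i) = y i) → (∀ i ∈ s, ∀ j ∈ s, i ≠ j → y i * y j = 0) →
    (∀ i ∈ s, ‖y i‖ ≤ C) → ‖∑ i ∈ s, y i‖ ^ (2 ^ k) ≤ (s.card : ℝ) * C ^ (2 ^ k) := by
  induction k with
  | zero =>
    intro y C hC _ _ hn
    rw [pow_zero, pow_one, pow_one]
    refine (norm_sum_le _ _).trans ?_
    refine (Finset.sum_le_sum hn).trans ?_
    simp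
  | succ k ih =>
    intro y C hC hs ho hn
    have h1 : ‖∑ i ∈ s, y i‖ ^ 2 = ‖∑ i ∈ s, y i * y i‖ := by
      rw [← orth_sum_sq s y ho, sq, ← CStarRing.norm_star_mul_self, star_sum,
        Finset.sum_congr rfl hs]
    have h2 := ih (fun i => y i * y i) (C ^ 2) (by positivity)
      (fun i hi => by rw [star_mul, hs i hi])
      (fun i hi j hj hij => by
        rw [mul_assoc, ← mul_assoc (y i) (y j), ho i hi j hj hij]; simp)
      (fun i hi => by
        refine (norm_mul_le _ _).trans ?_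
        have := hn i hi
        have := norm_nonneg (y i)
        nlinarith)
    rw [pow_succ, mul_comm (2 ^ k) 2, pow_mul, pow_mul, h1]
    exact h2

lemma orth_norm_le {ι : Type*} (s : Finset ι) (y : ι → A) (C : ℝ) (hC : 0 < C)
    (hs : ∀ i ∈ s, star (y i) = y i) (ho : ∀ i ∈ s, ∀ j ∈ s, i ≠ j → y i * y j = 0)
    (hn : ∀ i ∈ s, ‖y i‖ ≤ C) : ‖∑ i ∈ s, y i‖ ≤ C := by
  by_contra hcon
  push Not at hcon
  set R := ‖∑ i ∈ s, y i‖ with hR
  have h1 : 1 < R / C := by rwa [one_lt_div hC]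
  have h2 : Tendsto (fun k : ℕ => (R / C) ^ (2 ^ k)) atTop atTop :=
    (tendsto_pow_atTop_atTop_of_one_lt h1).comp
      (tendsto_pow_atTop_atTop_of_one_lt (by norm_num : (1 : ℕ) < 2))
  obtain ⟨k, hk⟩ := (h2.eventually_gt_atTop (s.card : ℝ)).exists
  have h3 := orth_norm_pow s k y C hC.le hs ho hn
  rw [← hR] at h3
  rw [div_pow, lt_div_iff₀ (by positivity)] at hk
  linarith

/-! ### strict sums -/

lemma exists_strict_sum (e : ℕ → A) (hle : ∀ a : A, Tendsto (fun n => e n * a) atTop (𝓝 a))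
    (S : ℕ → A) (hs : ∀ i, star (S i) = S i) (ho : ∀ i j, i ≠ j → S i * S j = 0)
    (hn : ∀ i, ‖S i‖ ≤ 2) (hv : ∀ k, ∃ j0, ∀ j, j0 ≤ j → S j * e k = 0) :
    ∃ x : 𝓜(ℂ, A), ∀ a : A, HasSum (fun j => S j * a) (x.fst a) ∧
      HasSum (fun j => a * S j) (x.snd a) := by
  have hb : ∀ s : Finset ℕ, ‖∑ j ∈ s, S j‖ ≤ 2 := fun s =>
    orth_norm_le s S 2 (by norm_num) (fun i _ => hs i) (fun i _ j _ h => ho i j h)
      (fun i _ => hn i)
  have hsummL : ∀ a : A, Summable (fun j => S j * a) := by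
    intro a
    rw [summable_iff_vanishing_norm]
    intro ε hε
    obtain ⟨k, hk⟩ := (Metric.tendsto_atTop.1 (hle a)) (ε / 2) (by positivity)
    have hk' := hk k le_rfl
    obtain ⟨j0, hj0⟩ := hv k
    refine ⟨Finset.range j0, fun t ht => ?_⟩
    have h1 : ∑ j ∈ t, S j * a = (∑ j ∈ t, S j) * (a - e k * a) := by
      rw [Finset.sum_mul]
      refine Finset.sum_congr rfl fun j hj => ?_
      have hj' : j0 ≤ j := by
        by_contra hlt
        exact (Finset.disjoint_left.1 ht hj) (Finset.mem_range.2 (by omega))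
      rw [mul_sub, ← mul_assoc, hj0 j hj', zero_mul, sub_zero]
    rw [h1]
    refine (norm_mul_le _ _).trans_lt ?_
    have h2 : ‖a - e k * a‖ < ε / 2 := by rwa [dist_eq_norm, ← norm_neg, neg_sub] at hk'
    have h3 := hb t
    have h4 := norm_nonneg (a - e k * a)
    nlinarith [norm_nonneg (∑ j ∈ t, S j)]
  have hsummR : ∀ a : A, Summable (fun j => a * S j) := by
    intro a
    have h := (hsummL (star a)).star
    refine h.congr fun j => ?_
    rw [star_mul, star_star, hs]
  have hnormL : ∀ a : A, ‖∑' j, S j * a‖ ≤ 2 * ‖a‖ := by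
    intro a
    refine le_of_tendsto ((hsummL a).hasSum.norm) (Eventually.of_forall fun s => ?_)
    simp only
    rw [← Finset.sum_mul]
    refine (norm_mul_le _ _).trans ?_
    exact mul_le_mul_of_nonneg_right (hb s) (norm_nonneg a)
  have hnormR : ∀ a : A, ‖∑' j, a * S j‖ ≤ 2 * ‖a‖ := by
    intro a
    refine le_of_tendsto ((hsummR a).hasSum.norm) (Eventually.of_forall fun s => ?_)
    simp only
    rw [← Finset.mul_sum]
    refine (norm_mul_le _ _).trans ?_
    rw [mul_comm]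
    exact mul_le_mul_of_nonneg_right (hb s) (norm_nonneg a)
  let L : A →L[ℂ] A := LinearMap.mkContinuous
    { toFun := fun a => ∑' j, S j * a
      map_add' := fun a b => by
        simp only [mul_add]
        exact (hsummL a).tsum_add (hsummL b)
      map_smul' := fun c a => by
        simp only [mul_smul_comm, RingHom.id_apply]
        exact (hsummL a).tsum_const_smul c } 2 hnormL
  let R : A →L[ℂ] A := LinearMap.mkContinuous
    { toFun := fun a => ∑' j, a * S j
      map_add' := fun a b => by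
        simp only [add_mul]
        exact (hsummR a).tsum_add (hsummR b)
      map_smul' := fun c a => by
        simp only [smul_mul_assoc, RingHom.id_apply]
        exact (hsummR a).tsum_const_smul c } 2 hnormR
  have hL : ∀ a, L a = ∑' j, S j * a := fun _ => rfl
  have hR : ∀ a, R a = ∑' j, a * S j := fun _ => rfl
  refine ⟨⟨(L, R), fun a b => ?_⟩, fun a => ⟨?_, ?_⟩⟩
  · show R a * b = a * L b
    rw [hR, hL, ← (hsummR a).tsum_mul_right b, ← (hsummL b).tsum_mul_left a]
    exact tsum_congr fun j => mul_assoc _ _ _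
  · exact (hsummL a).hasSum
  · exact (hsummR a).hasSum

end Pool.Agent.R667.NM
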