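import Mathlib
import Pool.Agent.R667.NM.PartI2

/-!
Part I, conclusion: `D.J` is nonmeagre.
-/

namespace Pool.Agent.R667.NM

open scoped MultiplierAlgebra
open Filter Topology

variable {A : Type*} [NonUnitalCStarAlgebra A]

lemma IsPos.star_eq {a : A} (h : IsPos a) : star a = a := by
  obtain ⟨b, rfl⟩ := h
  rw [star_mul, star_star]

lemma TD.q_le_t (D : TD A) (n : ℕ) {a : A} (h : IsPosContr a) : D.q n a ≤ D.t n a := by
  obtain ⟨⟨b, rfl⟩, hn⟩ := h
  rw [CStarRing.norm_star_mul_self] at hn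
  have h1 := D.cs n (star b) b
  rw [norm_star, star_star] at h1
  have h2 : D.q n (star b * b) = D.t n (star b * (b * star b) * b) := by
    unfold TD.q
    rw [star_mul, star_star]
    simp only [mul_assoc]
  rw [h2]
  refine h1.trans ?_
  have h3 := D.pos n b
  nlinarith

namespace GoodAI

variable {e : ℕ → A} (he : GoodAI e)
include he

lemma star_e (n : ℕ) : star (e n) = e n := (he.contr n).1.star_eq

lemma e_mul {i j : ℕ} (h : i < j) : e j * e i = e i := by
  obtain ⟨k, rfl⟩ := Nat.exists_eq_add_of_lt h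
  induction k with
  | zero => exact he.mul i
  | succ k ih =>
    have h1 := ih (by omega)
    calc e (i + (k + 1) + 1) * e i = e (i + (k + 1) + 1) * (e (i + k + 1) * e i) := by rw [h1]
      _ = (e (i + (k + 1) + 1) * e (i + k + 1)) * e i := by rw [mul_assoc]
      _ = e (i + k + 1) * e i := by
        rw [show i + (k + 1) + 1 = (i + k + 1) + 1 by ring, he.mul]
      _ = e i := h1

lemma e_mul' {i j : ℕ} (h : i < j) : e i * e j = e i := by
  have := congrArg star (he.e_mul h)
  rwa [star_mul, he.star_e, he.star_e] at this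

lemma sh_contr (n : ℕ) : IsPosContr (sh e n) := by
  cases n with
  | zero => exact ⟨⟨0, by simp [sh]⟩, by simp [sh]⟩
  | succ n => exact he.contr n

lemma star_sh (n : ℕ) : star (sh e n) = sh e n := (he.sh_contr n).1.star_eq

lemma sh_mul {i j : ℕ} (h : i < j) : sh e j * sh e i = sh e i := by
  cases i with
  | zero => simp [sh]
  | succ i =>
    cases j with
    | zero => omega
    | succ j => exact he.e_mul (by omega)

lemma sh_mul' {i j : ℕ} (h : i < j) : sh e i * sh e j = sh e i := by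
  have := congrArg star (he.sh_mul h)
  rwa [star_mul, he.star_sh, he.star_sh] at this

end GoodAI

/-- the elements `g_{I_n}` -/
def gg (e : ℕ → A) (b : ℕ → ℕ) (n : ℕ) : A := sh e (b (n + 1)) - sh e (b n)

section gg

variable {e : ℕ → A} (he : GoodAI e) {b : ℕ → ℕ} (hb : StrictMono b)
include he

lemma star_gg (n : ℕ) : star (gg e b n) = gg e b n := by
  unfold gg; rw [star_sub, he.star_sh, he.star_sh]

lemma norm_gg (n : ℕ) : ‖gg e b n‖ ≤ 2 := by
  unfold gg
  refine (norm_sub_le _ _).trans ?_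
  have h1 := (he.sh_contr (b (n + 1))).2
  have h2 := (he.sh_contr (b n)).2
  linarith

include hb

lemma gg_mul {i j : ℕ} (h : i + 2 ≤ j) : gg e b i * gg e b j = 0 := by
  have h1 : b i < b (i + 1) := hb (by omega)
  have h2 : b (i + 1) < b j := hb (by omega)
  have h3 : b j < b (j + 1) := hb (by omega)
  unfold gg
  rw [sub_mul, mul_sub, mul_sub, he.sh_mul' (h2.trans h3), he.sh_mul' h2,
    he.sh_mul' (h1.trans (h2.trans h3)), he.sh_mul' (h1.trans h2)]
  abel

lemma gg_mul' {i j : ℕ} (h : i + 2 ≤ j) : gg e b j * gg e b i = 0 := by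
  have := congrArg star (gg_mul he hb h)
  rwa [star_mul, star_gg he, star_gg he, star_zero] at this

lemma q_gg_le (D : TD A) (n k : ℕ) : D.q n (gg e b k) ≤ D.t n (gg e b k) := by
  have h1 : b k < b (k + 1) := hb (by omega)
  have h2 : star (gg e b k) * gg e b k
      = star (sh e (b (k + 1))) * sh e (b (k + 1)) - sh e (b k) - sh e (b k)
        + star (sh e (b k)) * sh e (b k) := by
    rw [star_gg he]
    unfold gg
    rw [sub_mul, mul_sub, mul_sub, he.sh_mul' h1, he.sh_mul h1, he.star_sh, he.star_sh]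
    abel
  have h3 := D.q_le_t n (he.sh_contr (b (k + 1)))
  have h4 := D.q_le_t n (he.sh_contr (b k))
  unfold TD.q at h3 h4 ⊢
  rw [h2, D.add, D.t_sub, D.t_sub]
  have h5 : D.t n (gg e b k) = D.t n (sh e (b (k + 1))) - D.t n (sh e (b k)) := by
    unfold gg; rw [D.t_sub]
  rw [h5]
  linarith

lemma t_gg_nonneg (D : TD A) (n k : ℕ) : 0 ≤ D.t n (gg e b k) :=
  (D.q_nonneg n _).trans (q_gg_le he hb D n k)

lemma t_gg_sum (D : TD A) (h0 : b 0 = 0) (n N : ℕ) :
    ∑ k ∈ Finset.range N, D.t n (gg e b k) ≤ 1 := by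
  have h1 : ∑ k ∈ Finset.range N, D.t n (gg e b k) = D.t n (sh e (b N)) := by
    induction N with
    | zero => simp [h0, sh, D.t_zero]
    | succ N ih =>
      rw [Finset.sum_range_succ, ih]
      unfold gg
      rw [D.t_sub]
      ring
  rw [h1]
  exact (le_abs_self _).trans ((D.bd n _).trans (he.sh_contr _).2)

lemma gg_van (k : ℕ) {n : ℕ} (hn : k + 2 ≤ n) : gg e b n * e k = 0 := by
  have h1 : n ≤ b n := hb.id_le n
  have h2 : b n < b (n + 1) := hb (by omega)
  have h3 : e k = sh e (k + 1) := rfl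
  unfold gg
  rw [h3, sub_mul, he.sh_mul (by omega), he.sh_mul (by omega), sub_self]

end gg

theorem TD.nonmeagre (D : TD A) : Nonmeagre D.J := by
  intro e he b hb hb0
  let mm : ℕ → ℕ → ℝ := fun n k => D.t n (gg e b k)
  have hm0 : ∀ n k, 0 ≤ mm n k := fun n k => t_gg_nonneg he hb D n k
  have hm1 : ∀ n N, ∑ k ∈ Finset.range N, mm n k ≤ 1 := fun n N => t_gg_sum he hb D hb0 n N
  let ψ : ℕ → ℕ := psi mm
  have hψ : StrictMono ψ := psi_mono mm
  let S : ℕ → A := fun j => gg e b (ψ j)
  have hSs : ∀ j, star (S j) = S j := fun j => star_gg he _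
  have hSo : ∀ i j, i ≠ j → S i * S j = 0 := by
    intro i j hij
    rcases lt_or_gt_of_ne hij with h | h
    · exact gg_mul he hb (psi_gap mm h)
    · exact gg_mul' he hb (psi_gap mm h)
  have hSn : ∀ j, ‖S j‖ ≤ 2 := fun j => norm_gg he _
  have hSv : ∀ k, ∃ j0, ∀ j, j0 ≤ j → S j * e k = 0 := by
    intro k
    refine ⟨k + 2, fun j hj => gg_van he hb k ?_⟩
    exact hj.trans (hψ.id_le j)
  obtain ⟨x, hx⟩ := exists_strict_sum e he.left S hSs hSo hSn hSv
  refine ⟨Set.range ψ, Set.infinite_range_of_injective hψ.injective, x, ?_, fun a => ?_⟩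
  · rw [D.mem_J]
    intro ε hε
    obtain ⟨K, hK⟩ := exists_pow_lt_of_lt_one hε (by norm_num : (1 / 2 : ℝ) < 1)
    refine ⟨∑ j ∈ Finset.range K, S j, ?_⟩
    filter_upwards [psi_tail mm hm0 hm1 K] with n hn c
    have hlim : Tendsto (fun N => D.q n (∑ j ∈ Finset.range N, S j * c
        - (∑ j ∈ Finset.range K, S j) * c)) atTop
        (𝓝 (D.q n (x.fst c - (∑ j ∈ Finset.range K, S j) * c))) := by
      have h1 := (hx c).1.tendsto_sum_nat
      exact ((D.q_cont n).tendsto _).comp (h1.sub tendsto_const_nhds)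
    refine le_of_tendsto hlim ?_
    filter_upwards [eventually_ge_atTop K] with N hN
    have h2 : ∑ j ∈ Finset.range N, S j * c - (∑ j ∈ Finset.range K, S j) * c
        = (∑ j ∈ Finset.Ico K N, S j) * c := by
      rw [← Finset.sum_mul, ← sub_mul, Finset.sum_Ico_eq_sub _ hN]
    rw [h2]
    set X := ∑ j ∈ Finset.Ico K N, S j with hX
    have hXs : star X = X := by
      rw [hX, star_sum]
      exact Finset.sum_congr rfl fun j _ => hSs j
    have hXX : star X * X = ∑ j ∈ Finset.Ico K N, star (S j) * S j := by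
      rw [hXs, hX, orth_sum_sq _ _ (fun i _ j _ h => hSo i j h)]
      exact Finset.sum_congr rfl fun j _ => by rw [hSs]
    have hqX : D.q n X ≤ (1 / 2 : ℝ) ^ K := by
      have h3 : D.q n X = ∑ j ∈ Finset.Ico K N, D.q n (S j) := by
        unfold TD.q
        rw [hXX]
        exact map_sum (D.th n) _ _
      rw [h3]
      refine (Finset.sum_le_sum fun j _ => q_gg_le he hb D n (ψ j)).trans ?_
      exact hn N
    have h4 : D.q n (X * c) ≤ ‖c‖ ^ 2 * D.q n X := by
      have h5 : D.q n (X * c) = D.q n (star c * star X) := by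
        unfold TD.q
        rw [D.comm n, star_mul, star_mul, star_star, star_star]
      rw [h5, hXs]
      refine (D.q_mul_le n _ _).trans ?_
      rw [norm_star]
    refine h4.trans ?_
    have h6 : 0 ≤ ‖c‖ ^ 2 := by positivity
    nlinarith
  · constructor
    · have := (hx a).1
      exact (Function.Injective.hasSum_range_iff hψ.injective
        (f := fun n => (sh e (b (n + 1)) - sh e (b n)) * a)).2 this
    · have := (hx a).2
      exact (Function.Injective.hasSum_range_iff hψ.injective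
        (f := fun n => a * (sh e (b (n + 1)) - sh e (b n)))).2 this

/-- Part I -/
theorem partI (D : TD A) : ∃ J : TwoSidedIdeal 𝓜(ℂ, A),
    (∀ a : A, (a : 𝓜(ℂ, A)) ∈ J) ∧ J ≠ ⊤ ∧ IsClosed (J : Set 𝓜(ℂ, A)) ∧ Nonmeagre J :=
  ⟨D.J, fun a => (D.mem_J _).2 (D.coe_mem a), D.J_ne_top, D.isClosed_J, D.nonmeagre⟩

end Pool.Agent.R667.NM
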