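import Mathlib
import Pool.Agent.R667.NM.Alg
import Pool.Agent.R667.NM.CombLemmas
import Pool.Agent.R667.NM.AlgLemmas

/-!
`AA` is separable and nonunital (piece NM-B2).
-/

namespace Pool.Agent.R667.NM

open scoped ENNReal InnerProductSpace
open Filter Topology

theorem units_countable (i : ℕ) : (units i).Countable := by
  have hex : ∀ T : units i, ∃ ab : Om × Om, (T : BH) = E i ab.1 ab.2 := by
    rintro ⟨T, a, b, -, -, rfl⟩
    exact ⟨(a, b), rfl⟩
  choose g hg using hex
  let pr : Om → (Fin (i + 1) → ℕ × ℕ) := fun a j => a.1 j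
  have hpr : ∀ a b : Om, pr a = pr b → agree i a b := by
    intro a b h j hj
    exact congrFun h ⟨j, by omega⟩
  have hinj : Function.Injective fun T : units i => (pr (g T).1, pr (g T).2) := by
    intro T T' h
    simp only [Prod.mk.injEq] at h
    apply Subtype.ext
    rw [hg T, hg T']
    exact E_congr i _ _ _ _ (hpr _ _ h.1) (hpr _ _ h.2)
  have : Countable (units i) := hinj.countable
  exact Set.countable_coe_iff.1 this

/-- NM-B2 -/
theorem AA_separable : TopologicalSpace.SeparableSpace AA := by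
  have h1 : ∀ i, TopologicalSpace.IsSeparable ((A0 i : Submodule ℂ BH) : Set BH) := fun i =>
    (units_countable i).isSeparable.span
  have h2 : TopologicalSpace.IsSeparable (AA : Set BH) := by
    refine (TopologicalSpace.IsSeparable.iUnion h1).closure.mono ?_
    intro T hT
    rw [Metric.mem_closure_iff]
    intro ε hε
    obtain ⟨i, S, hS, hTS⟩ := exists_A0_near hT hε
    exact ⟨S, Set.mem_iUnion.2 ⟨i, hS⟩, by rwa [dist_eq_norm]⟩
  exact h2.separableSpace

/-- NM-B2 -/
theorem AA_nonunital : ¬ ∃ u : AA, ∀ a : AA, u * a = a ∧ a * u = a := by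
  classical
  rintro ⟨u, hu⟩
  obtain ⟨i, S, hS, huS⟩ := exists_A0_near u.2 (ε := 1 / 2) (by norm_num)
  have hs0 : st i (start0 0 (by omega)) = 0 := rfl
  have hk : 0 < m i (st i (start0 0 (by omega))) (i + 1) := by
    rw [hs0]
    exact m_seed i
  set x : Om := ext i (start0 0 (by omega)) (i + 1) 0 with hx
  have hx0 : st i x = 0 := (ext_agree i _ _ _).st_eq.trans hs0
  have hx1 : st (i + 1) x = i + 1 := st_ext hk
  have hsA : E (i + 1) x x ∈ A0 (i + 1) :=
    Submodule.subset_span ⟨x, x, rfl, by omega, rfl⟩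
  have hSs : S * E (i + 1) x x = 0 := by
    refine Submodule.span_induction (p := fun S _ => S * E (i + 1) x x = 0) ?_ ?_ ?_ ?_ hS
    · rintro T ⟨a, b, hab, h0, rfl⟩
      ext v y
      rw [mul_apply_eq_comp, E_apply]
      by_cases h1 : agree i y a ∧ st i a = st i b
      · rw [if_pos h1, E_apply, if_neg]
        · rfl
        · intro h2
          apply h0
          have h3 : st i (splice i b y) = st i b := (splice_agree i b y).st_eq
          have h4 : st i (splice i b y) = st i x := (agree_mono (Nat.le_succ i) h2.1).st_eq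
          rw [hab, ← h3, h4, hx0]
      · rw [if_neg h1]
        rfl
    · exact zero_mul _
    · intro T T' _ _ h h'
      rw [add_mul, h, h', add_zero]
    · intro r T _ h
      rw [smul_mul_assoc, h, smul_zero]
  have h1 : (u : BH) * E (i + 1) x x = E (i + 1) x x := by
    have := (hu ⟨E (i + 1) x x, A0_le_AA _ hsA⟩).1
    exact congrArg Subtype.val this
  have h2 : E (i + 1) x x = ((u : BH) - S) * E (i + 1) x x := by
    rw [sub_mul, h1, hSs, sub_zero]
  have h3 : ‖E (i + 1) x x‖ ≤ 1 / 2 * ‖E (i + 1) x x‖ := by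
    calc ‖E (i + 1) x x‖ = ‖((u : BH) - S) * E (i + 1) x x‖ := by rw [← h2]
      _ ≤ ‖(u : BH) - S‖ * ‖E (i + 1) x x‖ := norm_mul_le _ _
      _ ≤ 1 / 2 * ‖E (i + 1) x x‖ := mul_le_mul_of_nonneg_right huS.le (norm_nonneg _)
  have h4 : E (i + 1) x x = 0 := by
    rw [← norm_eq_zero]
    have := norm_nonneg (E (i + 1) x x)
    linarith
  have h5 : E (i + 1) x x (dl x) = dl x := by
    rw [E_dl, if_pos ⟨agree_refl _ _, rfl⟩, splice_self (agree_refl _ _)]
  rw [h4] at h5
  have h6 : (dl x : Om → ℂ) x = 0 := by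
    rw [← h5]
    rfl
  rw [dl_apply_self] at h6
  exact one_ne_zero h6

end Pool.Agent.R667.NM
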