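import Mathlib
import Pool.Agent.R667.NM.Alg
import Pool.Agent.R667.NM.AlgLemmas

/-! Piece NM-B3: the algebra `AA` is simple. -/

namespace Pool.Agent.R667.NM

open scoped ENNReal InnerProductSpace
open Filter Topology

/-- membership in the ideal, for operators -/
def SmpI (I : TwoSidedIdeal AA) (T : BH) : Prop := ∃ h : T ∈ AA, (⟨T, h⟩ : AA) ∈ I

lemma smpI_add {I : TwoSidedIdeal AA} {S T : BH} (hS : SmpI I S) (hT : SmpI I T) : SmpI I (S + T) := by
  obtain ⟨h1, h2⟩ := hS
  obtain ⟨h3, h4⟩ := hT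
  exact ⟨add_mem h1 h3, I.add_mem h2 h4⟩

lemma smpI_sub {I : TwoSidedIdeal AA} {S T : BH} (hS : SmpI I S) (hT : SmpI I T) : SmpI I (S - T) := by
  obtain ⟨h1, h2⟩ := hS
  obtain ⟨h3, h4⟩ := hT
  exact ⟨sub_mem h1 h3, I.sub_mem h2 h4⟩

lemma smpI_zero (I : TwoSidedIdeal AA) : SmpI I 0 := ⟨zero_mem _, I.zero_mem⟩

lemma smpI_mul_left {I : TwoSidedIdeal AA} {S T : BH} (hS : S ∈ AA) (hT : SmpI I T) :
    SmpI I (S * T) := by
  obtain ⟨h3, h4⟩ := hT
  exact ⟨mul_mem hS h3, I.mul_mem_left ⟨S, hS⟩ ⟨T, h3⟩ h4⟩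

lemma smpI_mul_right {I : TwoSidedIdeal AA} {S T : BH} (hS : SmpI I S) (hT : T ∈ AA) :
    SmpI I (S * T) := by
  obtain ⟨h3, h4⟩ := hS
  exact ⟨mul_mem h3 hT, I.mul_mem_right ⟨S, h3⟩ ⟨T, hT⟩ h4⟩

lemma smpI_closed {I : TwoSidedIdeal AA} (hI : IsClosed (I : Set AA)) {T : BH} (hT : T ∈ AA)
    (h : ∀ ε : ℝ, 0 < ε → ∃ S, SmpI I S ∧ ‖T - S‖ < ε) : SmpI I T := by
  refine ⟨hT, ?_⟩
  have h1 : (⟨T, hT⟩ : AA) ∈ closure (I : Set AA) := by
    rw [Metric.mem_closure_iff]
    intro ε hε
    obtain ⟨S, ⟨hS1, hS2⟩, hS3⟩ := h ε hε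
    refine ⟨⟨S, hS1⟩, hS2, ?_⟩
    rw [Subtype.dist_eq, dist_eq_norm]
    exact hS3
  rw [hI.closure_eq] at h1
  exact h1

lemma smp_E_mem_A0 (i : ℕ) (a b : Om) (h : st i a = st i b) (h0 : st i a ≠ 0) : E i a b ∈ A0 i :=
  Submodule.subset_span ⟨a, b, h, h0, rfl⟩

lemma smp_smul_mem (c : ℂ) {T : BH} (hT : T ∈ AA) : c • T ∈ AA := by
  exact SMulMemClass.smul_mem c hT

lemma smp_norm_E_le (i : ℕ) (a b : Om) : ‖E i a b‖ ≤ 1 := norm_op_le _

lemma smp_norm_dl (x : Om) : ‖dl x‖ = 1 := by
  classical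
  unfold dl
  rw [lp.norm_single (by norm_num)]
  simp

/-- `E l o o` dominates the finer projections -/
lemma smp_E_sub (i l : ℕ) (h : i ≤ l) (o o' : Om) (ho : agree i o' o) :
    E l o' o' * E i o o = E l o' o' := by
  classical
  ext v x
  show (E l o' o' (E i o o v) : Om → ℂ) x = _
  rw [E_apply, E_apply, E_apply]
  by_cases h1 : agree l x o'
  · have h2 : splice l o' x = x := splice_self (agree_symm h1)
    have h3 : agree i x o := agree_trans (agree_mono h h1) ho
    have h4 : splice i o x = x := splice_self (agree_symm h3)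
    rw [if_pos ⟨h1, rfl⟩, h2, if_pos ⟨h3, rfl⟩, h4, if_pos ⟨h1, rfl⟩]
  · rw [if_neg (fun h2 => h1 h2.1)]
    rw [if_neg (fun h2 => h1 h2.1)]

/-- all units of level `l + 1` lie in the ideal if a diagonal unit of level `l` does -/
lemma smp_units {I : TwoSidedIdeal AA} (l : ℕ) (o : Om) (ho : st l o ≠ 0)
    (hq : SmpI I (E l o o)) {T : BH} (hT : T ∈ A0 (l + 1)) : SmpI I T := by
  classical
  -- units
  have hunit : ∀ a b : Om, st (l + 1) a = st (l + 1) b → st (l + 1) a ≠ 0 →
      SmpI I (E (l + 1) a b) := by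
    intro a b hab ha
    set w := st (l + 1) a with hw
    have hw2 : w ≤ l + 2 := st_le (l + 1) a
    have hm : 0 < m l (st l o) w :=
      m_pos' l (st l o) w (Nat.one_le_iff_ne_zero.2 ho) (st_le l o) (Nat.one_le_iff_ne_zero.2 ha) hw2
    set o' := ext l o w 0 with ho'
    have hst : st (l + 1) o' = w := st_ext hm
    have hag : agree l o' o := ext_agree l o w 0
    have he : SmpI I (E (l + 1) o' o') := by
      rw [← smp_E_sub l (l + 1) (Nat.le_succ l) o o' hag]
      exact smpI_mul_left (A0_le_AA (l + 1) (smp_E_mem_A0 _ _ _ rfl (by rw [hst]; exact ha))) hq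
    have h1 : E (l + 1) a b = E (l + 1) a o' * E (l + 1) o' o' * E (l + 1) o' b := by
      rw [E_mul _ _ _ _ _ (by rw [hst]) rfl, if_pos (agree_refl _ _),
        E_mul _ _ _ _ _ (by rw [hst]) (by rw [hst]; exact hab), if_pos (agree_refl _ _)]
    rw [h1]
    apply smpI_mul_right
    · apply smpI_mul_left _ he
      exact A0_le_AA (l + 1) (smp_E_mem_A0 _ _ _ (by rw [hst]) ha)
    · exact A0_le_AA (l + 1) (smp_E_mem_A0 _ _ _ (by rw [hst]; exact hab) (by rw [hst]; exact ha))
  have hall : ∀ c : ℂ, SmpI I (c • T) := by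
    induction hT using Submodule.span_induction with
    | mem x hx =>
      obtain ⟨a, b, hab, ha, rfl⟩ := hx
      intro c
      have h1 : c • E (l + 1) a b = (c • E (l + 1) a a) * E (l + 1) a b := by
        rw [smul_mul_assoc, E_mul _ _ _ _ _ rfl hab, if_pos (agree_refl _ _)]
      rw [h1]
      apply smpI_mul_left _ (hunit a b hab ha)
      exact smp_smul_mem c (A0_le_AA (l + 1) (smp_E_mem_A0 _ _ _ rfl ha))
    | zero =>
      intro c
      rw [smul_zero]
      exact smpI_zero I
    | add x y _ _ hx hy =>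
      intro c
      rw [smul_add]
      exact smpI_add (hx c) (hy c)
    | smul a x _ hx =>
      intro c
      rw [smul_smul]
      exact hx (c * a)
  have := hall 1
  rwa [one_smul] at this

/-- an operator that kills all basis vectors is zero -/
lemma smp_eq_zero {T : BH} (h : ∀ x, T (dl x) = 0) : T = 0 := by
  classical
  have h2 : T = (0 : BH) := by
    apply lp.ext_continuousLinearMap (by norm_num)
    intro i
    ext c
    have h3 : T (lp.single 2 i (1 : ℂ)) = 0 := by
      have := h i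
      unfold dl at this
      exact this
    simp [h3]
  exact h2

lemma smp_A0_dl_zero {i : ℕ} {T : BH} (hT : T ∈ A0 i) (x : Om) (hx : st i x = 0) : T (dl x) = 0 := by
  classical
  induction hT using Submodule.span_induction with
  | mem y hy =>
    obtain ⟨a, b, hab, ha, rfl⟩ := hy
    rw [E_dl, if_neg]
    rintro ⟨h1, _⟩
    apply ha
    rw [hab, ← h1.st_eq, hx]
  | zero => rfl
  | add y z _ _ hy hz =>
    rw [_root_.add_apply, hy, hz, add_zero]
  | smul c y _ hy =>
    rw [_root_.smul_apply, hy, smul_zero]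

theorem AA_simple (I : TwoSidedIdeal AA) (hI : IsClosed (I : Set AA)) : I = ⊥ ∨ I = ⊤ := by
  classical
  by_cases hbot : ∀ y ∈ I, y = 0
  · left
    apply TwoSidedIdeal.ext
    intro x
    rw [TwoSidedIdeal.mem_bot]
    constructor
    · exact hbot x
    · rintro rfl
      exact I.zero_mem
  · right
    push Not at hbot
    obtain ⟨⟨y, hyA⟩, hyI, hy0⟩ := hbot
    have hy0' : y ≠ 0 := by
      intro h
      apply hy0
      apply Subtype.ext
      exact h
    -- a basis vector not killed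
    obtain ⟨o, ho⟩ : ∃ o, y (dl o) ≠ 0 := by
      by_contra hcon
      push Not at hcon
      exact hy0' (smp_eq_zero hcon)
    have hsA : star y ∈ AA := star_mem hyA
    have hx : SmpI I (star y * y) := smpI_mul_left hsA ⟨hyA, hyI⟩
    set x := star y * y with hxdef
    set c : ℝ := ‖y (dl o)‖ ^ 2 with hc
    have hc0 : 0 < c := by
      have := norm_pos_iff.2 ho
      positivity
    have hin : ⟪dl o, x (dl o)⟫_ℂ = (c : ℂ) := by
      rw [hxdef]
      show ⟪dl o, (star y) (y (dl o))⟫_ℂ = _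
      rw [ContinuousLinearMap.star_eq_adjoint, ContinuousLinearMap.adjoint_inner_right,
        inner_self_eq_norm_sq_to_K, hc]
      push_cast
      rfl
    -- `o` is not always waiting
    obtain ⟨i0, hi0⟩ : ∃ i0, st i0 o ≠ 0 := by
      obtain ⟨i, S, hS, hyS⟩ := exists_A0_near hyA (norm_pos_iff.2 ho)
      refine ⟨i, fun h0 => ?_⟩
      have h1 : S (dl o) = 0 := smp_A0_dl_zero hS o h0
      have h2 : ‖y (dl o)‖ ≤ ‖y - S‖ := by
        have h3 : y (dl o) = (y - S) (dl o) := by
          rw [_root_.sub_apply, h1, sub_zero]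
        rw [h3]
        have := (y - S).le_opNorm (dl o)
        rwa [smp_norm_dl, mul_one] at this
      linarith
    obtain ⟨i1, S, hS, hxS⟩ := exists_A0_near hx.1 (show (0 : ℝ) < c / 4 by positivity)
    set i := max i0 i1 with hi
    have hSi : S ∈ A0 i := A0_mono (le_max_right _ _) hS
    have hio : st i o ≠ 0 := st_ne_mono hi0 (le_max_left _ _)
    set q := E i o o with hq
    have hqA : q ∈ AA := A0_le_AA i (smp_E_mem_A0 i o o rfl hio)
    have hqq : q * q = q := by
      rw [hq, E_mul _ _ _ _ _ rfl rfl, if_pos (agree_refl _ _)]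
    have hqn : ‖q‖ ≤ 1 := smp_norm_E_le i o o
    have hdn : ‖dl o‖ = 1 := smp_norm_dl o
    set z := ((1 / c : ℝ) : ℂ) • (q * x * q) with hz
    have hzI : SmpI I z := by
      have h1 : z = ((((1 / c : ℝ) : ℂ) • q) * x) * q := by
        rw [hz, smul_mul_assoc, smul_mul_assoc]
      rw [h1]
      exact smpI_mul_right (smpI_mul_left (smp_smul_mem _ hqA) hx) hqA
    have hzn : ‖q - z‖ ≤ 1 / 2 := by
      have h1 : q * S * q = ⟪dl o, S (dl o)⟫_ℂ • q := E_compress i o hSi
      have h2 : q - z = ((1 / c : ℝ) : ℂ) • ((((c : ℝ) : ℂ) - ⟪dl o, S (dl o)⟫_ℂ) • q -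
          (q * (x - S) * q)) := by
        have hcc : ((1 / c : ℝ) : ℂ) * (c : ℂ) = 1 := by
          rw [← Complex.ofReal_mul, one_div, inv_mul_cancel₀ hc0.ne', Complex.ofReal_one]
        rw [mul_sub, sub_mul, h1, hz, smul_sub, smul_sub, sub_smul, smul_sub, smul_smul, hcc,
          one_smul]
        abel
      have h3 : ‖((c : ℝ) : ℂ) - ⟪dl o, S (dl o)⟫_ℂ‖ ≤ c / 4 := by
        rw [← hin, ← inner_sub_right, ← _root_.sub_apply]
        refine (norm_inner_le_norm _ _).trans ?_
        rw [hdn, one_mul]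
        refine ((x - S).le_opNorm _).trans ?_
        rw [hdn, mul_one]
        exact hxS.le
      have h4 : ‖q * (x - S) * q‖ ≤ c / 4 := by
        refine (norm_mul_le _ _).trans ?_
        have h5 : ‖q * (x - S)‖ ≤ c / 4 := by
          refine (norm_mul_le _ _).trans ?_
          calc ‖q‖ * ‖x - S‖ ≤ 1 * (c / 4) := by
                apply mul_le_mul hqn hxS.le (norm_nonneg _) (by norm_num)
            _ = c / 4 := one_mul _
        calc ‖q * (x - S)‖ * ‖q‖ ≤ (c / 4) * 1 := by
              apply mul_le_mul h5 hqn (norm_nonneg _) (by positivity)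
          _ = c / 4 := mul_one _
      rw [h2, norm_smul]
      have h6 : ‖((1 / c : ℝ) : ℂ)‖ = 1 / c := by
        rw [Complex.norm_real, Real.norm_eq_abs, abs_of_pos (by positivity)]
      rw [h6]
      have h7 : ‖(((c : ℝ) : ℂ) - ⟪dl o, S (dl o)⟫_ℂ) • q - q * (x - S) * q‖ ≤ c / 2 := by
        refine (norm_sub_le _ _).trans ?_
        rw [norm_smul]
        have h8 : ‖((c : ℝ) : ℂ) - ⟪dl o, S (dl o)⟫_ℂ‖ * ‖q‖ ≤ (c / 4) * 1 :=
          mul_le_mul h3 hqn (norm_nonneg _) (by positivity)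
        linarith
      calc 1 / c * ‖(((c : ℝ) : ℂ) - ⟪dl o, S (dl o)⟫_ℂ) • q - q * (x - S) * q‖
          ≤ 1 / c * (c / 2) := by
            apply mul_le_mul_of_nonneg_left h7 (by positivity)
        _ = 1 / 2 := by field_simp
    -- q is in the ideal
    have hqI : SmpI I q := by
      apply smpI_closed hI hqA
      have hseq : ∀ n : ℕ, ∃ S, SmpI I S ∧ ‖q - S‖ ≤ (1 / 2) ^ n := by
        intro n
        -- d with q - d in the ideal
        have h1 : ∀ n : ℕ, ∃ d : BH, d ∈ AA ∧ SmpI I (q - d) ∧ ‖d‖ ≤ (1 / 2) ^ (n + 1) := by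
          intro n
          induction n with
          | zero =>
            refine ⟨q - z, sub_mem hqA hzI.1, ?_, by simpa using hzn⟩
            rw [sub_sub_cancel]
            exact hzI
          | succ n ih =>
            obtain ⟨d, hdA, hd1, hd2⟩ := ih
            refine ⟨d * (q - z), mul_mem hdA (sub_mem hqA hzI.1), ?_, ?_⟩
            · have h2 : q - d * (q - z) = (q - d) * q + d * z := by
                rw [mul_sub, sub_mul, hqq]
                abel
              rw [h2]
              exact smpI_add (smpI_mul_right hd1 hqA) (smpI_mul_left hdA hzI)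
            · refine (norm_mul_le _ _).trans ?_
              calc ‖d‖ * ‖q - z‖ ≤ (1 / 2) ^ (n + 1) * (1 / 2) :=
                    mul_le_mul hd2 hzn (norm_nonneg _) (by positivity)
                _ = (1 / 2) ^ (n + 1 + 1) := by rw [pow_succ (1 / 2 : ℝ) (n + 1)]
        obtain ⟨d, hdA, hd1, hd2⟩ := h1 n
        refine ⟨q - d, hd1, ?_⟩
        rw [sub_sub_cancel]
        refine hd2.trans ?_
        exact pow_le_pow_of_le_one (by norm_num) (by norm_num) (Nat.le_succ n)
      intro ε hε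
      obtain ⟨n, hn⟩ := exists_pow_lt_of_lt_one hε (show (1 / 2 : ℝ) < 1 by norm_num)
      obtain ⟨S, hS1, hS2⟩ := hseq n
      exact ⟨S, hS1, lt_of_le_of_lt hS2 hn⟩
    -- every element is in the ideal
    apply TwoSidedIdeal.ext
    rintro ⟨T, hT⟩
    refine ⟨fun _ => TwoSidedIdeal.mem_top _, fun _ => ?_⟩
    have hTI : SmpI I T := by
      apply smpI_closed hI hT
      intro ε hε
      obtain ⟨j, R, hR, hTR⟩ := exists_A0_near hT hε
      refine ⟨R, ?_, hTR⟩
      have hR' : R ∈ A0 (max i j + 1) := A0_mono (by have := le_max_right i j; omega) hR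
      have hl : i ≤ max i j := le_max_left _ _
      have ho' : st (max i j) o ≠ 0 := st_ne_mono hio hl
      have hqI' : SmpI I (E (max i j) o o) := by
        rw [← smp_E_sub i (max i j) hl o o (agree_refl _ _)]
        exact smpI_mul_left (A0_le_AA _ (smp_E_mem_A0 _ _ _ rfl ho')) hqI
      exact smp_units (max i j) o ho' hqI' hR'
    obtain ⟨_, h⟩ := hTI
    exact h

end Pool.Agent.R667.NM
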