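import Mathlib
import Pool.Agent.R667.NM.Alg
import Pool.Agent.R667.NM.CombLemmas
import Pool.Agent.R667.NM.PhiLemmas
import Pool.Agent.R667.NM.AlgLemmas

/-!
The finite-level traces (piece NM-Ta).
-/

namespace Pool.Agent.R667.NM

open scoped ENNReal InnerProductSpace
open Filter Topology

theorem norm_dl (x : Om) : ‖dl x‖ = 1 := by
  have h1 : ⟪dl x, dl x⟫_ℂ = 1 := by rw [inner_dl_left, dl_apply_self]
  have h2 : ‖dl x‖ ^ 2 = 1 := by
    rw [← inner_self_eq_norm_sq (𝕜 := ℂ), h1]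
    simp
  have h3 := norm_nonneg (dl x)
  nlinarith

theorem tt_add (l w : ℕ) (S T : BH) : tt l w (S + T) = tt l w S + tt l w T := by
  unfold tt
  rw [← add_div, ← Phi_add]
  congr 2
  funext a
  rw [ContinuousLinearMap.add_apply, inner_add_right, Complex.add_re]

theorem Phi_nonneg (l w : ℕ) {f : Om → ℝ} (h : ∀ a, 0 ≤ f a) : 0 ≤ Phi l w f := by
  have h1 : Phi l w (fun _ => (0 : ℝ)) ≤ Phi l w f := Phi_mono l w fun a _ => h a
  have h2 : Phi l w (fun _ => (0 : ℝ)) = 0 := by
    have := Phi_map (0 : ℝ →+ ℝ) l w (fun _ => (0 : ℝ))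
    simpa using this.symm
  rwa [h2] at h1

theorem Phi_smul (l w : ℕ) (c : ℝ) (f : Om → ℝ) :
    Phi l w (fun a => c * f a) = c * Phi l w f :=
  (Phi_map (AddMonoidHom.mulLeft c) l w f).symm

theorem Phi_neg (l w : ℕ) (f : Om → ℝ) : Phi l w (fun a => - f a) = - Phi l w f := by
  have := Phi_smul l w (-1) f
  simpa using this

theorem tt_bd (l w : ℕ) (hw : w ≤ l + 1) (T : BH) : |tt l w T| ≤ ‖T‖ := by
  have hc : (0 : ℝ) < cnt l w := by exact_mod_cast cnt_pos l w hw
  have hb : ∀ a : Om, |(⟪dl a, T (dl a)⟫_ℂ).re| ≤ ‖T‖ := by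
    intro a
    refine (Complex.abs_re_le_norm _).trans ?_
    refine (norm_inner_le_norm _ _).trans ?_
    rw [norm_dl, one_mul]
    have := T.le_opNorm (dl a)
    rwa [norm_dl, mul_one] at this
  unfold tt
  rw [abs_div, abs_of_pos hc, div_le_iff₀ hc, abs_le]
  constructor
  · have h1 : Phi l w (fun _ => -‖T‖) ≤ Phi l w (fun a => (⟪dl a, T (dl a)⟫_ℂ).re) :=
      Phi_mono l w fun a _ => (abs_le.1 (hb a)).1
    rw [Phi_const l w hw] at h1
    linarith
  · have h1 : Phi l w (fun a => (⟪dl a, T (dl a)⟫_ℂ).re) ≤ Phi l w (fun _ => ‖T‖) :=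
      Phi_mono l w fun a _ => (abs_le.1 (hb a)).2
    rw [Phi_const l w hw] at h1
    linarith

theorem re_star_mul (T : BH) (v : HX Om) : (⟪v, (star T * T) v⟫_ℂ).re = ‖T v‖ ^ 2 := by
  rw [mul_apply_eq_comp, ContinuousLinearMap.star_eq_adjoint,
    ContinuousLinearMap.adjoint_inner_right]
  rw [← inner_self_eq_norm_sq (𝕜 := ℂ)]
  rfl

theorem tt_pos (l w : ℕ) (T : BH) : 0 ≤ tt l w (star T * T) := by
  unfold tt
  refine div_nonneg (Phi_nonneg l w fun a => ?_) (Nat.cast_nonneg _)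
  rw [re_star_mul]
  positivity

theorem tt_star (l w : ℕ) (T : BH) : tt l w (star T) = tt l w T := by
  unfold tt
  congr 2
  funext a
  rw [ContinuousLinearMap.star_eq_adjoint, ContinuousLinearMap.adjoint_inner_right,
    ← inner_conj_symm, Complex.conj_re]

theorem tt_cs (l w : ℕ) (S T : BH) :
    tt l w (star T * (star S * S) * T) ≤ ‖S‖ ^ 2 * tt l w (star T * T) := by
  unfold tt
  rw [mul_div_assoc', ← Phi_smul]
  refine div_le_div_of_nonneg_right ?_ (Nat.cast_nonneg _)
  refine Phi_mono l w fun a _ => ?_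
  have h1 : star T * (star S * S) * T = star (S * T) * (S * T) := by
    rw [star_mul]
    noncomm_ring
  rw [h1, re_star_mul, re_star_mul, mul_apply_eq_comp, ← mul_pow]
  exact pow_le_pow_left₀ (norm_nonneg _) (S.le_opNorm _) 2

theorem tt_zero (l w : ℕ) : tt l w 0 = 0 := by
  have := tt_add l w 0 0
  rw [add_zero] at this
  linarith

open Classical in
theorem tt_comm_E (l w : ℕ) (hw : w ≤ l + 1) (S : BH) (a b : Om) (hab : st l a = st l b) :
    tt l w (S * E l a b) = tt l w (E l a b * S) := by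
  unfold tt
  congr 1
  -- left side
  have h1 : Phi l w (fun x => (⟪dl x, (S * E l a b) (dl x)⟫_ℂ).re) =
      if st l b = w then (⟪dl (canon l b), S (dl (splice l a (canon l b)))⟫_ℂ).re else 0 := by
    rw [← Phi_agree l w hw b (fun x => (⟪dl x, S (dl (splice l a x))⟫_ℂ).re)]
    congr 1
    funext x
    rw [mul_apply_eq_comp, E_dl]
    by_cases hx : agree l x b
    · rw [if_pos ⟨hx, hab⟩, if_pos hx]
    · rw [if_neg (fun h => hx h.1), if_neg hx, map_zero, inner_zero_right]
      rfl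
  have h2 : Phi l w (fun x => (⟪dl x, (E l a b * S) (dl x)⟫_ℂ).re) =
      if st l a = w then (⟪dl (splice l b (canon l a)), S (dl (canon l a))⟫_ℂ).re else 0 := by
    rw [← Phi_agree l w hw a (fun x => (⟪dl (splice l b x), S (dl x)⟫_ℂ).re)]
    congr 1
    funext x
    have h3 : ⟪dl x, (E l a b * S) (dl x)⟫_ℂ = ⟪E l b a (dl x), S (dl x)⟫_ℂ := by
      rw [← E_star l a b, mul_apply_eq_comp, ContinuousLinearMap.star_eq_adjoint,
        ContinuousLinearMap.adjoint_inner_left]
    rw [h3, E_dl]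
    by_cases hx : agree l x a
    · rw [if_pos ⟨hx, hab.symm⟩, if_pos hx]
    · rw [if_neg (fun h => hx h.1), if_neg hx, inner_zero_left]
      rfl
  rw [h1, h2, splice_canon l a b hab, splice_canon l b a hab.symm, hab]

/-- `A0 l` is in the centralizer of `tt l w` (for all complex scalars, hence stated for the span) -/
theorem tt_comm (l w : ℕ) (hw : w ≤ l + 1) (S T : BH) (hT : T ∈ A0 l) :
    tt l w (S * T) = tt l w (T * S) := by
  refine Submodule.span_induction
    (p := fun T _ => ∀ S : BH, tt l w (S * T) = tt l w (T * S)) ?_ ?_ ?_ ?_ hT S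
  · rintro T ⟨a, b, hab, h0, rfl⟩ S
    exact tt_comm_E l w hw S a b hab
  · intro S
    rw [mul_zero, zero_mul]
  · intro T T' _ _ h h' S
    rw [mul_add, add_mul, tt_add, tt_add, h, h']
  · intro r T _ h S
    rw [mul_smul_comm, smul_mul_assoc, ← smul_mul_assoc, ← mul_smul_comm]
    exact h (r • S)

theorem tt_P (i j w : ℕ) (hw : w ≤ i + j + 1) :
    tt (i + j) w (P i) = (NN i j w : ℝ) / (cnt (i + j) w : ℝ) := by
  classical
  unfold tt
  congr 1
  rw [← Phi_NN i j w hw]
  congr 1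
  funext a
  rw [inner_dl_left, P_apply_st, dl_apply_self]
  split_ifs <;> simp

end Pool.Agent.R667.NM
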