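import Mathlib
import Pool.Agent.R667.NM.Alg
import Pool.Agent.R667.NM.CombLemmas
import Pool.Agent.R667.NM.AlgLemmas
import Pool.Agent.R667.NM.TraceFin

/-! The traces as ultrafilter limits of the finite-level traces (piece NM-Tb). -/

namespace Pool.Agent.R667.NM

open scoped ENNReal InnerProductSpace
open Filter Topology

/-! NM-Tb -/

lemma exists_ulim (U : Ultrafilter ℕ) (f : ℕ → ℝ) (C : ℝ)
    (h : ∀ᶠ l in (U : Filter ℕ), |f l| ≤ C) : ∃ x, Tendsto f (U : Filter ℕ) (𝓝 x) := by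
  have h1 : IsCompact (Set.Icc (-C) C) := isCompact_Icc
  have h2 : ((U.map f : Ultrafilter ℝ) : Filter ℝ) ≤ 𝓟 (Set.Icc (-C) C) := by
    rw [Ultrafilter.coe_map, Filter.le_principal_iff, Filter.mem_map]
    filter_upwards [h] with l hl
    exact abs_le.1 hl
  obtain ⟨x, _, hx⟩ := h1.ultrafilter_le_nhds (U.map f) h2
  exact ⟨x, hx⟩

/-- the traces; `tau n` is the limit of `tt l (n+1)` along an ultrafilter in `l` -/
theorem exists_tau : ∃ τ : ℕ → BH → ℝ,
    (∀ n S T, τ n (S + T) = τ n S + τ n T) ∧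
    (∀ n T, |τ n T| ≤ ‖T‖) ∧
    (∀ n T, 0 ≤ τ n (star T * T)) ∧
    (∀ n T, τ n (star T) = τ n T) ∧
    (∀ n S T, τ n (star T * (star S * S) * T) ≤ ‖S‖ ^ 2 * τ n (star T * T)) ∧
    (∀ n S T, T ∈ AA → τ n (S * T) = τ n (T * S)) ∧
    (∀ n i, n < i → 1 - (1 / 2 : ℝ) ^ (i + 2) ≤ τ n (P i)) ∧
    (∀ n i, i ≤ n → τ n (P i) ≤ 1 / 2 + (1 / 2 : ℝ) ^ (n + 2)) := by
  obtain ⟨U, hU⟩ : ∃ U : Ultrafilter ℕ, (U : Filter ℕ) ≤ atTop :=
    ⟨Ultrafilter.of atTop, Ultrafilter.of_le _⟩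
  have hbig : ∀ k : ℕ, ∀ᶠ l in (U : Filter ℕ), k ≤ l := fun k => hU (eventually_ge_atTop k)
  have hbd : ∀ (n : ℕ) (T : BH), ∀ᶠ l in (U : Filter ℕ), |tt l (n + 1) T| ≤ ‖T‖ := by
    intro n T
    filter_upwards [hbig n] with l hl
    exact tt_bd l (n + 1) (by omega) T
  have hex : ∀ (n : ℕ) (T : BH), ∃ x, Tendsto (fun l => tt l (n + 1) T) (U : Filter ℕ) (𝓝 x) :=
    fun n T => exists_ulim U _ _ (hbd n T)
  choose τ hτ using hex
  have hadd : ∀ n S T, τ n (S + T) = τ n S + τ n T := by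
    intro n S T
    refine tendsto_nhds_unique (hτ n (S + T)) ?_
    refine Tendsto.congr ?_ ((hτ n S).add (hτ n T))
    intro l
    exact (tt_add l (n + 1) S T).symm
  have hb : ∀ n T, |τ n T| ≤ ‖T‖ := by
    intro n T
    exact le_of_tendsto (hτ n T).abs (hbd n T)
  have hzero : ∀ n, τ n 0 = 0 := by
    intro n
    have h := hadd n 0 0
    rw [add_zero] at h
    linarith
  have hneg : ∀ n T, τ n (-T) = - τ n T := by
    intro n T
    have h := hadd n T (-T)
    rw [add_neg_cancel, hzero] at h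
    linarith
  have hsub : ∀ n S T, τ n (S - T) = τ n S - τ n T := by
    intro n S T
    rw [sub_eq_add_neg, hadd, hneg]
    ring
  have hcomm0 : ∀ n i S T, T ∈ A0 i → τ n (S * T) = τ n (T * S) := by
    intro n i S T hT
    refine tendsto_nhds_unique (hτ n (S * T)) ?_
    refine Tendsto.congr' ?_ (hτ n (T * S))
    filter_upwards [hbig (max i n)] with l hl
    exact (tt_comm l (n + 1) (by omega) S T (A0_mono (by omega : i ≤ l) hT)).symm
  refine ⟨τ, hadd, hb, ?_, ?_, ?_, ?_, ?_, ?_⟩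
  · intro n T
    exact ge_of_tendsto (hτ n _) (Eventually.of_forall fun l => tt_pos l (n + 1) T)
  · intro n T
    refine tendsto_nhds_unique (hτ n (star T)) ?_
    refine Tendsto.congr ?_ (hτ n T)
    intro l
    exact (tt_star l (n + 1) T).symm
  · intro n S T
    exact le_of_tendsto_of_tendsto (hτ n _) ((hτ n _).const_mul _)
      (Eventually.of_forall fun l => tt_cs l (n + 1) S T)
  · intro n S T hT
    have hk : ∀ ε : ℝ, 0 < ε → |τ n (S * T) - τ n (T * S)| ≤ 2 * ‖S‖ * ε := by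
      intro ε hε
      obtain ⟨i, T', hT', hn⟩ := exists_A0_near hT hε
      have h1 : τ n (S * T) - τ n (T * S) = τ n (S * (T - T')) - τ n ((T - T') * S) := by
        rw [mul_sub, sub_mul, hsub, hsub, hcomm0 n i S T' hT']
        ring
      have h2 : |τ n (S * (T - T'))| ≤ ‖S‖ * ε :=
        (hb _ _).trans ((norm_mul_le _ _).trans
          (mul_le_mul_of_nonneg_left hn.le (norm_nonneg _)))
      have h3 : |τ n ((T - T') * S)| ≤ ε * ‖S‖ :=
        (hb _ _).trans ((norm_mul_le _ _).trans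
          (mul_le_mul_of_nonneg_right hn.le (norm_nonneg _)))
      rw [h1]
      have h4 := abs_sub (τ n (S * (T - T'))) (τ n ((T - T') * S))
      nlinarith
    have h0 : |τ n (S * T) - τ n (T * S)| ≤ 0 := by
      refine le_of_forall_pos_le_add fun δ hδ => ?_
      have hS : 0 < 2 * ‖S‖ + 1 := by positivity
      have h5 := hk (δ / (2 * ‖S‖ + 1)) (by positivity)
      have h6 : 2 * ‖S‖ * (δ / (2 * ‖S‖ + 1)) ≤ δ := by
        rw [← mul_div_assoc, div_le_iff₀ hS]
        nlinarith [norm_nonneg S]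
      linarith
    have h7 := abs_nonpos_iff.1 h0
    linarith
  · intro n i hni
    refine ge_of_tendsto (hτ n (P i)) ?_
    filter_upwards [hbig i] with l hl
    obtain ⟨j, rfl⟩ : ∃ j, l = i + j := ⟨l - i, by omega⟩
    rw [tt_P i j (n + 1) (by omega)]
    have hc : (1 : ℝ) ≤ (cnt (i + j) (n + 1) : ℝ) := by
      exact_mod_cast cnt_pos (i + j) (n + 1) (by omega)
    rw [le_div_iff₀ (by linarith)]
    exact NN_lower n i j hni
  · intro n i hin
    refine le_of_tendsto (hτ n (P i)) ?_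
    filter_upwards [hbig (n + 1)] with l hl
    obtain ⟨j, rfl⟩ : ∃ j, l = i + j := ⟨l - i, by omega⟩
    rw [tt_P i j (n + 1) (by omega)]
    have hc : (1 : ℝ) ≤ (cnt (i + j) (n + 1) : ℝ) := by
      exact_mod_cast cnt_pos (i + j) (n + 1) (by omega)
    rw [div_le_iff₀ (by linarith)]
    exact NN_upper n i j hin (by omega)

end Pool.Agent.R667.NM
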