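import Mathlib
import Pool.Agent.R667.NM.Alg
import Pool.Agent.R667.NM.PartI3
import Pool.Agent.R667.NM.AlgLemmas
import Pool.Agent.R667.NM.SepNonunital
import Pool.Agent.R667.NM.Simple
import Pool.Agent.R667.NM.TraceLim

/-!
Assembly for MP_86e2e0_an.
-/

namespace Pool.Agent.R667.NM

open scoped MultiplierAlgebra
open Filter Topology


theorem exists_TD : Nonempty (TD AA) := by
  obtain ⟨τ, h1, h2, h3, h4, h5, h6, h7, h8⟩ := exists_tau
  exact ⟨{
    t := fun n a => τ n (a : BH)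
    p := fun k => ⟨P k, P_mem_AA k⟩
    add := fun n a b => h1 n a b
    bd := fun n a => h2 n a
    pos := fun n a => h3 n a
    star_t := fun n a => h4 n a
    cs := fun n a b => h5 n a b
    comm := fun n a b => h6 n a b b.2
    p_star := fun k => Subtype.ext (P_star k)
    p_idem := fun k => Subtype.ext (P_idem k)
    p_norm := fun k => norm_P_le k
    p_lim := fun a => by
      rw [tendsto_subtype_rng]
      exact P_tendsto a.2
    low := fun n k h => h7 n k h
    upp := fun n k h => h8 n k h }⟩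

theorem AA_nontrivial : Nontrivial AA := by
  obtain ⟨D⟩ := exists_TD
  refine ⟨⟨D.p 1, 0, fun h => ?_⟩⟩
  have h1 := D.low 0 1 (by omega)
  rw [h, D.t_zero] at h1
  norm_num at h1

theorem main : ∃ (A : Type) (_ : NonUnitalCStarAlgebra A),
    TopologicalSpace.SeparableSpace A ∧ (¬ ∃ u : A, ∀ a : A, u * a = a ∧ a * u = a) ∧
    IsSimpleC A ∧
    ∃ J : TwoSidedIdeal 𝓜(ℂ, A), (∀ a : A, (a : 𝓜(ℂ, A)) ∈ J) ∧ J ≠ ⊤ ∧
      IsClosed (J : Set 𝓜(ℂ, A)) ∧ Nonmeagre J := by
  obtain ⟨D⟩ := exists_TD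
  exact ⟨AA, inferInstance, AA_separable, AA_nonunital, ⟨AA_nontrivial, AA_simple⟩, partI D⟩

end Pool.Agent.R667.NM
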